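import Mathlib

/-!
# Algebraic independence of two or three elements
-/

set_option autoImplicit false

open IntermediateField

namespace Pool.Agent.TH871.N4

variable {F K : Type*} [Field F] [Field K] [Algebra F K]

open scoped IntermediateField.algebraAdjoinAdjoin in
theorem alg_adjoin_iff (s : Set K) (x : K) :
    IsAlgebraic (Algebra.adjoin F s) x ↔ IsAlgebraic (IntermediateField.adjoin F s) x :=
  IsFractionRing.isAlgebraic_iff (Algebra.adjoin F s) (IntermediateField.adjoin F s) K

theorem indep_two {x y : K} : AlgebraicIndependent F ![x, y] ↔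
    Transcendental F x ∧ Transcendental (IntermediateField.adjoin F {x}) y := by
  have e : (![x, y] : Fin 2 → K) = (fun o : Option (Fin 1) => o.elim y ![x]) ∘ finSuccEquivLast := by
    funext i
    fin_cases i
    · show x = _
      have : (finSuccEquivLast (0 : Fin 2)) = some (0 : Fin 1) := by decide
      simp [this]
    · show y = _
      have : (finSuccEquivLast (1 : Fin 2)) = (none : Option (Fin 1)) := by decide
      simp [this]
  rw [e, algebraicIndependent_equiv, AlgebraicIndependent.option_iff,
    algebraicIndependent_unique_type_iff]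
  have hr : Set.range ![x] = {x} := by
    simp [Matrix.range_cons, Matrix.range_empty]
  rw [hr]
  unfold Transcendental
  rw [alg_adjoin_iff]
  rfl

theorem indep_swap {x y : K} : AlgebraicIndependent F ![x, y] ↔ AlgebraicIndependent F ![y, x] := by
  have e : (![x, y] : Fin 2 → K) = ![y, x] ∘ (Equiv.swap (0 : Fin 2) 1) := by
    funext i
    fin_cases i <;> simp
  rw [e, algebraicIndependent_equiv]

theorem indep_three {x y z : K} : AlgebraicIndependent F ![x, y, z] ↔
    AlgebraicIndependent F ![x, y] ∧ Transcendental (IntermediateField.adjoin F {x, y}) z := by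
  have e : (![x, y, z] : Fin 3 → K) =
      (fun o : Option (Fin 2) => o.elim z ![x, y]) ∘ finSuccEquivLast := by
    funext i
    fin_cases i
    · show x = _
      have : (finSuccEquivLast (0 : Fin 3)) = some (0 : Fin 2) := by decide
      simp [this]
    · show y = _
      have : (finSuccEquivLast (1 : Fin 3)) = some (1 : Fin 2) := by decide
      simp [this]
    · show z = _
      have : (finSuccEquivLast (2 : Fin 3)) = (none : Option (Fin 2)) := by decide
      simp [this]
  rw [e, algebraicIndependent_equiv, AlgebraicIndependent.option_iff]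
  have hr : Set.range ![x, y] = {x, y} := by
    simp [Matrix.range_cons, Matrix.range_empty, Set.pair_comm]
  rw [hr]
  unfold Transcendental
  rw [alg_adjoin_iff]

/-- transitivity of algebraicity -/
theorem alg_trans {κ κ' : IntermediateField F K} (h : ∀ z ∈ κ', IsAlgebraic κ z) {x : K}
    (hx : IsAlgebraic κ' x) : IsAlgebraic κ x := by
  let E : IntermediateField κ K := algebraicClosure κ K
  have hE : ∀ z ∈ κ', z ∈ E := fun z hz => mem_algebraicClosure_iff'.2 (h z hz).isIntegral
  have h1 : IsAlgebraic E x := by
    obtain ⟨p, hp0, hp⟩ := hx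
    let f : κ' →+* E :=
      { toFun := fun z => ⟨z, hE z z.2⟩
        map_one' := rfl
        map_mul' := fun _ _ => rfl
        map_zero' := rfl
        map_add' := fun _ _ => rfl }
    refine ⟨p.map f, fun hc => hp0 ((Polynomial.map_eq_zero f).1 hc), ?_⟩
    rw [Polynomial.aeval_def, Polynomial.eval₂_map]
    exact hp
  exact h1.restrictScalars κ

/-- algebraicity over a larger field -/
theorem alg_mono {κ κ' : IntermediateField F K} (h : κ' ≤ κ) {x : K} (hx : IsAlgebraic κ' x) :
    IsAlgebraic κ x :=
  alg_trans (fun z hz => isAlgebraic_algebraMap (R := κ) (A := K) ⟨z, h hz⟩) hx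

theorem alg_adjoin_of {κ : IntermediateField F K} {s : Set K} (h : ∀ z ∈ s, IsAlgebraic κ z)
    {z : K} (hz : z ∈ IntermediateField.adjoin F s) : IsAlgebraic κ z := by
  let E : IntermediateField κ K := algebraicClosure κ K
  have h1 : IntermediateField.adjoin F s ≤ E.restrictScalars F := by
    rw [IntermediateField.adjoin_le_iff]
    intro x hx
    exact mem_algebraicClosure_iff'.2 (h x hx).isIntegral
  have h2 : z ∈ E := h1 hz
  exact (mem_algebraicClosure_iff'.1 h2).isAlgebraic

theorem alg_of_dep {x y : K} (hx : Transcendental F x) (h : ¬ AlgebraicIndependent F ![x, y]) :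
    IsAlgebraic (IntermediateField.adjoin F {x}) y := by
  by_contra hc
  exact h (indep_two.2 ⟨hx, hc⟩)

/-- exchange -/
theorem exists_indep {x β γ : K} (h : AlgebraicIndependent F ![β, γ]) (hx : Transcendental F x) :
    AlgebraicIndependent F ![x, β] ∨ AlgebraicIndependent F ![x, γ] := by
  by_contra hcon
  rw [not_or] at hcon
  have h1 := indep_two.1 h
  have h2 : IsAlgebraic (IntermediateField.adjoin F {x}) γ := alg_of_dep hx hcon.2
  have h3 : IsAlgebraic (IntermediateField.adjoin F {β}) x :=
    alg_of_dep h1.1 (fun hc => hcon.1 (indep_swap.1 hc))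
  apply h1.2
  refine alg_trans (fun z hz => alg_adjoin_of (s := {x}) ?_ hz) h2
  intro z hz
  rw [Set.mem_singleton_iff.1 hz]
  exact h3

theorem mem_range_of_alg [IsAlgClosed F] {x : K} (h : IsAlgebraic F x) :
    ∃ c : F, algebraMap F K c = x := by
  have h1 : (minpoly F x).degree = 1 :=
    IsAlgClosed.degree_eq_one_of_irreducible F (minpoly.irreducible h.isIntegral)
  exact minpoly.mem_range_of_degree_eq_one F x h1

end Pool.Agent.TH871.N4
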