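import Pool.Agent.TH871.N4.Model

/-!
# The sections of `m L` through divisorial valuations, 2
-/

set_option autoImplicit false

open MvPolynomial Finset

namespace Pool.Agent.TH871.N4

open Pool.Agent.TH279.GR Pool.Agent.TH306.N4

variable {a b : ℕ} {FF : Type} [Field FF] [Algebra ℂ FF] {P : Ideal (Co a b)} {i : Fin (a + 1)}
  {j : Fin (b + 1)} {π : Co a b →ₐ[ℂ] FF}

theorem xx_one (h : Mod P i j π) : xx π i = 1 := by
  have h1 : π (X (Sum.inl i) - 1) = 0 := (h.ker _).2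
    (Ideal.mem_sup_right (Ideal.subset_span (Or.inl rfl)))
  rw [map_sub, map_one] at h1
  exact sub_eq_zero.1 h1

theorem yy_one (h : Mod P i j π) : yy π j = 1 := by
  have h1 : π (X (Sum.inr j) - 1) = 0 := (h.ker _).2
    (Ideal.mem_sup_right (Ideal.subset_span (Or.inr rfl)))
  rw [map_sub, map_one] at h1
  exact sub_eq_zero.1 h1

/-- bihomogeneous elements of the kernel -/
theorem pi_bh (h : Mod P i j π) {u v : ℕ} {f : Co a b} (hf : f ∈ bh a b u v) :
    π f = 0 ↔ f ∈ P := by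
  rw [h.ker]
  exact ⟨fun h1 => mem_of_mem_chart h.prime h.hom (p := (i, j)) h.hi h.hj hf h1,
    fun h1 => Ideal.mem_sup_left h1⟩

theorem X_mem_bh (k : Fin (a + 1)) : (X (Sum.inl k) : Co a b) ∈ bh a b 1 0 := by
  rw [bh_eq_span]
  refine Submodule.subset_span ⟨Finsupp.single (Sum.inl k) 1, ?_, ?_, rfl⟩
  · simp [Finsupp.single_apply]
  · simp

theorem Y_mem_bh (l : Fin (b + 1)) : (X (Sum.inr l) : Co a b) ∈ bh a b 0 1 := by
  rw [bh_eq_span]
  refine Submodule.subset_span ⟨Finsupp.single (Sum.inr l) 1, ?_, ?_, rfl⟩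
  · simp
  · simp [Finsupp.single_apply]

theorem xx_ne_iff (h : Mod P i j π) (k : Fin (a + 1)) : xx π k ≠ 0 ↔ X (Sum.inl k) ∉ P :=
  (pi_bh h (X_mem_bh k)).not

theorem yy_ne_iff (h : Mod P i j π) (l : Fin (b + 1)) : yy π l ≠ 0 ↔ X (Sum.inr l) ∉ P :=
  (pi_bh h (Y_mem_bh l)).not

theorem bh_mul {u v u' v' : ℕ} {f g : Co a b} (hf : f ∈ bh a b u v) (hg : g ∈ bh a b u' v') :
    f * g ∈ bh a b (u + u') (v + v') :=
  (mem_weightedHomogeneousSubmodule _ _ _ _).2
    (((mem_weightedHomogeneousSubmodule _ _ _ _).1 hf).mul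
      ((mem_weightedHomogeneousSubmodule _ _ _ _).1 hg))

theorem X_pow_bh (k : Fin (a + 1)) (n : ℕ) : (X (Sum.inl k) : Co a b) ^ n ∈ bh a b n 0 := by
  induction n with
  | zero =>
    rw [pow_zero]
    exact (mem_weightedHomogeneousSubmodule _ _ _ _).2 (isWeightedHomogeneous_one _ _)
  | succ n ih => exact bh_mul ih (X_mem_bh k)

theorem Y_pow_bh (l : Fin (b + 1)) (n : ℕ) : (X (Sum.inr l) : Co a b) ^ n ∈ bh a b 0 n := by
  induction n with
  | zero =>
    rw [pow_zero]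
    exact (mem_weightedHomogeneousSubmodule _ _ _ _).2 (isWeightedHomogeneous_one _ _)
  | succ n ih => exact bh_mul ih (Y_mem_bh l)

theorem theta_ker (h : Mod P i j π) {p : Fin (a + 1) × Fin (b + 1)} (h1 : xx π p.1 ≠ 0)
    (h2 : yy π p.2 ≠ 0) (f : Co a b) : theta π p f = 0 ↔ f ∈ chart p.1 p.2 P := by
  classical
  constructor
  · intro hf
    obtain ⟨D, hD⟩ := exists_comp f
    set F : Co a b := ∑ m ∈ range D ×ˢ range D, weightedHomogeneousComponent (wt a b) m f *
      (X (Sum.inl p.1) ^ (D - m.1) * X (Sum.inr p.2) ^ (D - m.2)) with hF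
    have hFbh : F ∈ bh a b D D := by
      refine Submodule.sum_mem _ fun m hm => ?_
      rw [Finset.mem_product, Finset.mem_range, Finset.mem_range] at hm
      have h3 := bh_mul (weightedHomogeneousComponent_mem (wt a b) f m : _ ∈ bh a b m.1 m.2)
        (bh_mul (X_pow_bh (a := a) (b := b) p.1 (D - m.1))
          (Y_pow_bh (a := a) (b := b) p.2 (D - m.2)))
      convert! h3 using 2 <;> omega
    have hFθ : theta π p F = 0 := by
      rw [← hf, hF]
      conv_rhs => rw [← hD]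
      rw [map_sum, map_sum]
      refine Finset.sum_congr rfl fun m _ => ?_
      rw [map_mul, map_mul, map_pow, map_pow, theta_X π h1, theta_Y π h2, one_pow, one_pow,
        mul_one, mul_one]
    have hFP : F ∈ P := by
      rw [← pi_bh h hFbh, ← theta_bh π h1 h2 hFbh, hFθ, zero_mul]
    have hmk : Ideal.Quotient.mk (chart p.1 p.2 P) F = Ideal.Quotient.mk (chart p.1 p.2 P) f := by
      have hx1 : Ideal.Quotient.mk (chart p.1 p.2 P) (X (Sum.inl p.1)) = 1 := by
        rw [← map_one (Ideal.Quotient.mk (chart p.1 p.2 P)), Ideal.Quotient.eq]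
        exact Ideal.mem_sup_right (Ideal.subset_span (Or.inl rfl))
      have hy1 : Ideal.Quotient.mk (chart p.1 p.2 P) (X (Sum.inr p.2)) = 1 := by
        rw [← map_one (Ideal.Quotient.mk (chart p.1 p.2 P)), Ideal.Quotient.eq]
        exact Ideal.mem_sup_right (Ideal.subset_span (Or.inr rfl))
      rw [hF]
      conv_rhs => rw [← hD]
      rw [map_sum, map_sum]
      refine Finset.sum_congr rfl fun m _ => ?_
      rw [map_mul, map_mul, map_pow, map_pow, hx1, hy1, one_pow, one_pow, mul_one, mul_one]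
    rw [← Ideal.Quotient.eq_zero_iff_mem, ← hmk, Ideal.Quotient.eq_zero_iff_mem]
    exact Ideal.mem_sup_left hFP
  · exact theta_eq_zero h.hom π (fun f hf => (h.ker f).2 (Ideal.mem_sup_left hf)) h1 h2

theorem range_theta (π : Co a b →ₐ[ℂ] FF) (p : Fin (a + 1) × Fin (b + 1)) :
    (theta π p).range = A ℂ (xx π) (yy π) p := by
  unfold theta A
  rw [← Algebra.adjoin_range_eq_range_aeval, Set.Sum.elim_range]

/-- the chart ring is the coordinate ring of the chart -/
noncomputable def chartEquiv (h : Mod P i j π) {p : Fin (a + 1) × Fin (b + 1)}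
    (h1 : xx π p.1 ≠ 0) (h2 : yy π p.2 ≠ 0) :
    (Co a b ⧸ chart p.1 p.2 P) ≃+* A ℂ (xx π) (yy π) p :=
  (Ideal.quotEquivOfEq (by
    ext f
    rw [RingHom.mem_ker, ← theta_ker h h1 h2]
    constructor
    · intro hf
      exact Subtype.ext hf
    · intro hf
      exact congrArg Subtype.val hf)).trans
  ((Ideal.quotientKerAlgEquivOfSurjective (f := (theta π p).rangeRestrict)
    (theta π p).rangeRestrict_surjective).toRingEquiv.trans
    (Subalgebra.equivOfEq _ _ (range_theta π p)).toRingEquiv)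

theorem integrallyClosed (h : Mod P i j π) (hn : Normal P) {p : Fin (a + 1) × Fin (b + 1)}
    (h1 : xx π p.1 ≠ 0) (h2 : yy π p.2 ≠ 0) : IsIntegrallyClosed (A ℂ (xx π) (yy π) p) := by
  have := hn p.1 p.2 ((xx_ne_iff h _).1 h1) ((yy_ne_iff h _).1 h2)
  exact IsIntegrallyClosed.of_equiv (chartEquiv h h1 h2)

theorem noetherian (π : Co a b →ₐ[ℂ] FF) (p : Fin (a + 1) × Fin (b + 1)) :
    IsNoetherianRing (A ℂ (xx π) (yy π) p) := by
  rw [← range_theta]
  exact isNoetherianRing_of_surjective (Co a b) _ (theta π p).rangeRestrict.toRingHom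
    (theta π p).rangeRestrict_surjective

theorem theta_self (h : Mod P i j π) : theta π (i, j) = π := by
  apply MvPolynomial.algHom_ext
  intro s
  rcases s with k | l
  · have h1 : theta π (i, j) (X (Sum.inl k)) = xx π k / xx π i := by simp [theta]
    rw [h1, xx_one h, div_one]
    rfl
  · have h1 : theta π (i, j) (X (Sum.inr l)) = yy π l / yy π j := by simp [theta]
    rw [h1, yy_one h, div_one]
    rfl

theorem isFractionRing (h : Mod P i j π) {p : Fin (a + 1) × Fin (b + 1)}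
    (h1 : xx π p.1 ≠ 0) (h2 : yy π p.2 ≠ 0) : IsFractionRing (A ℂ (xx π) (yy π) p) FF := by
  refine IsFractionRing.of_field (A ℂ (xx π) (yy π) p) FF fun z => ?_
  obtain ⟨f, g, hg, hz⟩ := h.frac z
  have hmem : ∀ f : Co a b, π f ∈ A ℂ (xx π) (yy π) (i, j) := fun f => by
    rw [← range_theta, theta_self h]
    exact ⟨f, rfl⟩
  have hi : xx π (i, j).1 ≠ 0 := by
    show xx π i ≠ 0
    rw [xx_one h]
    exact one_ne_zero
  have hj : yy π (i, j).2 ≠ 0 := by
    show yy π j ≠ 0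
    rw [yy_one h]
    exact one_ne_zero
  obtain ⟨e, he⟩ := exists_mul_mem hi hj (hmem f)
  obtain ⟨e', he'⟩ := exists_mul_mem hi hj (hmem g)
  have e1 := he (max e e') (le_max_left _ _)
  have e2 := he' (max e e') (le_max_right _ _)
  have e3 : xx π (i, j).1 ^ max e e' * yy π (i, j).2 ^ max e e' = 1 := by
    show xx π i ^ _ * yy π j ^ _ = 1
    rw [xx_one h, yy_one h, one_pow, one_mul]
  rw [e3, mul_one] at e1 e2
  refine ⟨⟨_, div_mem_A h1 h2 e1⟩, ⟨_, div_mem_A h1 h2 e2⟩, ?_⟩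
  show z = (π f / _) / (π g / _)
  rw [div_div_div_cancel_right₀ (mul_ne_zero (pow_ne_zero _ h1) (pow_ne_zero _ h2)),
    eq_div_iff hg, hz]

/-! ### The system of valuations -/

/-- the charts -/
abbrev Ch (π : Co a b →ₐ[ℂ] FF) : Type :=
  {p : Fin (a + 1) × Fin (b + 1) // xx π p.1 ≠ 0 ∧ yy π p.2 ≠ 0}

/-- prime divisors with a chart -/
abbrev Dv (π : Co a b →ₐ[ℂ] FF) : Type :=
  Σ p : Ch π, DPrime (A ℂ (xx π) (yy π) p.1) FF

/-- the order along a prime divisor -/
noncomputable def vv (π : Co a b →ₐ[ℂ] FF) (e : Dv π) (z : FF) : ℤ := e.2.ord z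

/-- the twist -/
noncomputable def cc (π : Co a b →ₐ[ℂ] FF) (e : Dv π) : ℤ :=
  e.2.ord (yy π e.1.1.2 / xx π e.1.1.1)

theorem divSys (h : Mod P i j π) (hn : Normal P) :
    DivSys ℂ (vv π) (cc π) (R ℂ (xx π) (yy π)) := by
  classical
  have hfr : ∀ p : Ch π, IsFractionRing (A ℂ (xx π) (yy π) p.1) FF := fun p =>
    isFractionRing h p.2.1 p.2.2
  have hno : ∀ p : Ch π, IsNoetherianRing (A ℂ (xx π) (yy π) p.1) := fun p =>
    noetherian π p.1
  have hic : ∀ p : Ch π, IsIntegrallyClosed (A ℂ (xx π) (yy π) p.1) := fun p =>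
    integrallyClosed h hn p.2.1 p.2.2
  have hne : ∀ p : Ch π, yy π p.1.2 / xx π p.1.1 ≠ 0 := fun p => div_ne_zero p.2.2 p.2.1
  refine ⟨⟨?_, ?_, ?_⟩, ?_, ?_, ?_⟩
  · rintro ⟨p, e⟩ x y hx hy
    exact e.ord_mul hx hy
  · rintro ⟨p, e⟩ x y hx hy hxy
    exact e.ord_add hx hy hxy
  · rintro ⟨p, e⟩ t ht
    have h1 : algebraMap ℂ FF t ≠ 0 := (map_ne_zero _).2 ht
    have h2 : e.val (algebraMap ℂ FF t) ≤ 1 := e.good.le_one ⟨_, Subalgebra.algebraMap_mem _ t⟩
    have h3 : e.val (algebraMap ℂ FF t⁻¹) ≤ 1 := e.good.le_one ⟨_, Subalgebra.algebraMap_mem _ _⟩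
    show e.ord _ = 0
    have h4 := (e.ord_nonneg_iff h1).2 h2
    have h1' : algebraMap ℂ FF t⁻¹ ≠ 0 := (map_ne_zero _).2 (inv_ne_zero ht)
    have h5 := (e.ord_nonneg_iff h1').2 h3
    have h6 := e.ord_mul h1 h1'
    rw [← map_mul, mul_inv_cancel₀ ht, map_one] at h6
    have h7 : e.ord (1 : FF) = 0 := (e.ord_eq_zero_iff one_ne_zero).2 (map_one _)
    omega
  · intro x hx
    have h1 : {e : Dv π | vv π e x ≠ 0} ⊆
        ⋃ p : Ch π, (fun e => (⟨p, e⟩ : Dv π)) '' {e | e.ord x ≠ 0} := by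
      rintro ⟨p, e⟩ he
      exact Set.mem_iUnion.2 ⟨p, e, he, rfl⟩
    exact (Set.finite_iUnion fun p => (@DPrime.finite _ _ _ _ _ _ (hfr p) (hno p) x hx).image _).subset h1
  · have h1 : {e : Dv π | cc π e ≠ 0} ⊆
        ⋃ p : Ch π, (fun e => (⟨p, e⟩ : Dv π)) '' {e | e.ord (yy π p.1.2 / xx π p.1.1) ≠ 0} := by
      rintro ⟨p, e⟩ he
      exact Set.mem_iUnion.2 ⟨p, e, he, rfl⟩
    exact (Set.finite_iUnion fun p =>
      (@DPrime.finite _ _ _ _ _ _ (hfr p) (hno p) _ (hne p)).image _).subset h1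
  · intro m x
    rw [mem_R_iff]
    have key : ∀ p : Ch π, x * (yy π p.1.2 / xx π p.1.1) ^ m ∈ A ℂ (xx π) (yy π) p.1 ↔
        ∀ e : DPrime (A ℂ (xx π) (yy π) p.1) FF, x ≠ 0 →
          0 ≤ vv π ⟨p, e⟩ x + m * cc π ⟨p, e⟩ := by
      intro p
      have := hfr p
      have := hno p
      have := hic p
      have h1 := DPrime.mem_iff (B := A ℂ (xx π) (yy π) p.1) (K := FF)
        (x * (yy π p.1.2 / xx π p.1.1) ^ m)
      have h2 : x * (yy π p.1.2 / xx π p.1.1) ^ m ∈
          (algebraMap (A ℂ (xx π) (yy π) p.1) FF).range ↔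
          x * (yy π p.1.2 / xx π p.1.1) ^ m ∈ A ℂ (xx π) (yy π) p.1 :=
        ⟨by rintro ⟨c, hc⟩; rw [← hc]; exact c.2, fun hc => ⟨⟨_, hc⟩, rfl⟩⟩
      rw [← h2, h1]
      refine forall_congr' fun e => ?_
      have h3 : ∀ n : ℕ, e.ord ((yy π p.1.2 / xx π p.1.1) ^ n) =
          n * e.ord (yy π p.1.2 / xx π p.1.1) := by
        intro n
        induction n with
        | zero =>
          simp only [pow_zero, Nat.cast_zero, zero_mul]
          exact (e.ord_eq_zero_iff one_ne_zero).2 (map_one _)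
        | succ n ih =>
          rw [pow_succ, e.ord_mul (pow_ne_zero _ (hne p)) (hne p), ih]
          push_cast
          ring
      constructor
      · intro h4 hx
        have h5 := h4 (mul_ne_zero hx (pow_ne_zero _ (hne p)))
        rw [e.ord_mul hx (pow_ne_zero _ (hne p)), h3] at h5
        exact h5
      · intro h4 hx
        have hx0 := left_ne_zero_of_mul hx
        have h5 := h4 hx0
        rw [e.ord_mul hx0 (pow_ne_zero _ (hne p)), h3]
        exact h5
    constructor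
    · rintro h1 ⟨p, e⟩ hx
      exact (key p).1 (h1 p.1 p.2.1 p.2.2) e hx
    · intro h1 p hp1 hp2
      exact (key ⟨p, hp1, hp2⟩).2 fun e hx => h1 ⟨_, e⟩ hx

end Pool.Agent.TH871.N4
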