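import Pool.Agent.TH871.N4.Stable

/-!
# Coprime pairs, twisted version

`R m` is the space of `x` in the field `K` with `v i x + m c i ≥ 0` for all `i` (the sections of
`m L`, `L = ∑ c i D i`).
-/

set_option autoImplicit false

namespace Pool.Agent.TH871.N4

variable {F K ι : Type*} [Field F] [Field K] [Algebra F K]

/-- `R m` consists of the `x` with `v i x + m c i ≥ 0` for all `i`; finite character -/
structure DivSys (F : Type*) {K ι : Type*} [Field F] [Field K] [Algebra F K] (v : ι → K → ℤ)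
    (c : ι → ℤ) (R : ℕ → Submodule F K) : Prop where
  ord : Ord F v
  fin : ∀ x : K, x ≠ 0 → {i | v i x ≠ 0}.Finite
  finc : {i | c i ≠ 0}.Finite
  mem : ∀ m x, x ∈ R m ↔ ∀ i, x ≠ 0 → 0 ≤ v i x + m * c i

namespace DivSys

variable {v : ι → K → ℤ} {c : ι → ℤ} {R : ℕ → Submodule F K}

/-- `i` is stable: all nonzero sections of positive degree vanish at `i` -/
def St (v : ι → K → ℤ) (c : ι → ℤ) (R : ℕ → Submodule F K) (i : ι) : Prop :=
  ∀ m, 1 ≤ m → ∀ x, x ≠ 0 → x ∈ R m → 0 < v i x + m * c i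

theorem mul (h : DivSys F v c R) {m n : ℕ} {x y : K} (hx : x ∈ R m) (hy : y ∈ R n) :
    x * y ∈ R (m + n) := by
  rw [h.mem] at hx hy ⊢
  intro i hxy
  have h1 : x ≠ 0 := left_ne_zero_of_mul hxy
  have h2 : y ≠ 0 := right_ne_zero_of_mul hxy
  rw [h.ord.mul i _ _ h1 h2]
  have := hx i h1
  have := hy i h2
  push_cast
  linarith

theorem pow (h : DivSys F v c R) {m : ℕ} {x : K} (hx : x ∈ R m) (n : ℕ) : x ^ n ∈ R (n * m) := by
  rw [h.mem] at hx ⊢
  intro i hxn
  rcases Nat.eq_zero_or_pos n with rfl | hn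
  · simp [h.ord.one i]
  · have h1 : x ≠ 0 := fun hc => hxn (by rw [hc, zero_pow hn.ne'])
    rw [h.ord.pow i h1]
    have := hx i h1
    push_cast
    nlinarith

theorem one_mem (h : DivSys F v c R) : (1 : K) ∈ R 0 := by
  rw [h.mem]
  intro i _
  simp [h.ord.one i]

/-- the two-section trick -/
theorem mem_of_nonstable (h : DivSys F v c R) {m' : ℕ} (hm' : 1 ≤ m') {g : K} (hg0 : g ≠ 0)
    (hg : g ∈ R m') {m : ℕ} {ψ : K}
    (hψ : ∀ i, ¬ St v c R i → ψ ≠ 0 → 0 ≤ v i ψ + m * c i) : ψ ∈ R m := by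
  classical
  rw [h.mem]
  intro i0 hψ0
  by_contra hneg
  push Not at hneg
  have hPfin : {i | v i ψ + m * c i < 0}.Finite := by
    refine ((h.fin ψ hψ0).union h.finc).subset fun i hi => ?_
    by_contra hcon
    rw [Set.mem_union, not_or] at hcon
    have h1 : v i ψ = 0 := not_not.1 hcon.1
    have h2 : c i = 0 := not_not.1 hcon.2
    have h3 : v i ψ + m * c i < 0 := hi
    rw [h1, h2, mul_zero, add_zero] at h3
    exact lt_irrefl _ h3
  have hst : ∀ i, v i ψ + m * c i < 0 → 0 < v i g + m' * c i := fun i hi => by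
    by_contra hc
    exact absurd (hψ i (fun hs => hc (hs m' hm' g hg0 hg)) hψ0) (not_le.2 hi)
  obtain ⟨j, hj, hmax⟩ := hPfin.exists_maximalFor
    (fun i => ((-(v i ψ + m * c i) : ℤ) : ℚ) / ((v i g + m' * c i : ℤ) : ℚ))
    {i | v i ψ + m * c i < 0} ⟨i0, hneg⟩
  have hj' : v j ψ + m * c j < 0 := hj
  have hjg : 0 < v j g + m' * c j := hst j hj'
  set q : ℕ := (v j g + m' * c j).toNat with hq
  set p : ℕ := (-(v j ψ + m * c j)).toNat with hp
  have hqz : (q : ℤ) = v j g + m' * c j := Int.toNat_of_nonneg hjg.le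
  have hpz : (p : ℤ) = -(v j ψ + m * c j) := Int.toNat_of_nonneg (by omega)
  have hp1 : 1 ≤ p := by omega
  have hx0 : ψ ^ q * g ^ p ≠ 0 := mul_ne_zero (pow_ne_zero _ hψ0) (pow_ne_zero _ hg0)
  have hval : ∀ i, v i (ψ ^ q * g ^ p) + ((q * m + p * m' : ℕ) : ℤ) * c i =
      q * (v i ψ + m * c i) + p * (v i g + m' * c i) := fun i => by
    rw [h.ord.mul i _ _ (pow_ne_zero _ hψ0) (pow_ne_zero _ hg0), h.ord.pow i hψ0,
      h.ord.pow i hg0]
    push_cast; ring
  have hsec : ψ ^ q * g ^ p ∈ R (q * m + p * m') := by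
    rw [h.mem]
    intro i _
    rw [hval i, hqz, hpz]
    by_cases hi : v i ψ + m * c i < 0
    · have hig := hst i hi
      have h1 : ((-(v i ψ + m * c i) : ℤ) : ℚ) / ((v i g + m' * c i : ℤ) : ℚ) ≤
          ((-(v j ψ + m * c j) : ℤ) : ℚ) / ((v j g + m' * c j : ℤ) : ℚ) := by
        by_contra hlt
        push Not at hlt
        exact absurd (hmax hi hlt.le) (not_le.2 hlt)
      have hig' : (0 : ℚ) < ((v i g + m' * c i : ℤ) : ℚ) := by exact_mod_cast hig
      have hjg' : (0 : ℚ) < ((v j g + m' * c j : ℤ) : ℚ) := by exact_mod_cast hjg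
      rw [div_le_div_iff₀ hig' hjg'] at h1
      have h2 : -(v i ψ + m * c i) * (v j g + m' * c j) ≤
          -(v j ψ + m * c j) * (v i g + m' * c i) := by exact_mod_cast h1
      nlinarith
    · push Not at hi
      have h5 := ((h.mem m' g).1 hg) i hg0
      have h3 : 0 ≤ (v j g + m' * c j) * (v i ψ + m * c i) := mul_nonneg hjg.le hi
      have h4 : 0 ≤ -(v j ψ + m * c j) * (v i g + m' * c i) := mul_nonneg (by omega) h5
      linarith
  have hjst : St v c R j := by
    by_contra hns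
    exact absurd (hψ j hns hψ0) (not_le.2 hj')
  have hdeg : 1 ≤ q * m + p * m' := by nlinarith
  have := hjst _ hdeg _ hx0 hsec
  rw [hval j, hqz, hpz] at this
  have h5 : (v j g + m' * c j) * (v j ψ + m * c j) +
      -(v j ψ + m * c j) * (v j g + m' * c j) = 0 := by ring
  omega

/-- a degree in which every non-stable place is avoided by a section -/
theorem exists_degree (h : DivSys F v c R) {m' : ℕ} (hm' : 1 ≤ m') {g : K} (hg0 : g ≠ 0)
    (hg : g ∈ R m') : ∃ k, 1 ≤ k ∧ m' ∣ k ∧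
      ∀ i, ¬ St v c R i → ∃ x ∈ R k, x ≠ 0 ∧ v i x + k * c i = 0 := by
  classical
  have hch : ∀ i, ¬ St v c R i → ∃ m, 1 ≤ m ∧ ∃ x, x ≠ 0 ∧ x ∈ R m ∧ v i x + m * c i = 0 := by
    intro i hi
    unfold St at hi
    push Not at hi
    obtain ⟨m, hm, x, hx0, hx, hle⟩ := hi
    exact ⟨m, hm, x, hx0, hx, le_antisymm hle ((h.mem m x).1 hx i hx0)⟩
  choose! M hM X hX using hch
  have hTfin : {i | v i g + m' * c i ≠ 0}.Finite := by
    refine ((h.fin g hg0).union h.finc).subset fun i hi => ?_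
    by_contra hcon
    rw [Set.mem_union, not_or] at hcon
    have h1 : v i g = 0 := not_not.1 hcon.1
    have h2 : c i = 0 := not_not.1 hcon.2
    apply hi
    rw [h1, h2, mul_zero, add_zero]
  set T : Finset ι := hTfin.toFinset.filter (fun i => ¬ St v c R i) with hT
  set P : ℕ := ∏ i ∈ T, M i with hP
  have hPpos : 1 ≤ P := Finset.one_le_prod' fun i hi => by
    rw [hT, Finset.mem_filter] at hi
    exact hM i hi.2
  refine ⟨m' * P, by nlinarith, Dvd.intro _ rfl, fun i hi => ?_⟩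
  by_cases hiT : i ∈ T
  · obtain ⟨q, hq⟩ : M i ∣ P := Finset.dvd_prod_of_mem M hiT
    refine ⟨X i ^ (m' * q), ?_, pow_ne_zero _ (hX i hi).1, ?_⟩
    · have := h.pow (hX i hi).2.1 (m' * q)
      rwa [show m' * q * M i = m' * P by rw [hq]; ring] at this
    · rw [h.ord.pow i (hX i hi).1]
      have h1 := (hX i hi).2.2
      have h2 : ((m' * P : ℕ) : ℤ) = (m' * q : ℕ) * (M i : ℤ) := by rw [hq]; push_cast; ring
      rw [h2, mul_assoc, ← mul_add, h1, mul_zero]
  · refine ⟨g ^ P, ?_, pow_ne_zero _ hg0, ?_⟩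
    · have := h.pow hg P
      rwa [mul_comm P m'] at this
    · have h0 : v i g + m' * c i = 0 := by
        by_contra hc
        exact hiT (by simp [hT, hc, hi])
      rw [h.ord.pow i hg0]
      push_cast
      linear_combination (P : ℤ) * h0

/-- if a degree avoids all non-stable places, so do its multiples -/
theorem avoid_mul (h : DivSys F v c R) {k : ℕ}
    (hk : ∀ i, ¬ St v c R i → ∃ x ∈ R k, x ≠ 0 ∧ v i x + k * c i = 0) (n : ℕ) :
    ∀ i, ¬ St v c R i → ∃ x ∈ R (n * k), x ≠ 0 ∧ v i x + (n * k : ℕ) * c i = 0 := by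
  intro i hi
  obtain ⟨x, hx, hx0, hxv⟩ := hk i hi
  refine ⟨x ^ n, h.pow hx n, pow_ne_zero _ hx0, ?_⟩
  rw [h.ord.pow i hx0]
  push_cast
  linear_combination (n : ℤ) * hxv

/-- the elements of `R k` vanishing at `i` -/
def van (h : DivSys F v c R) (i : ι) (k : ℕ) : Submodule F K where
  carrier := {x | x ∈ R k ∧ (x ≠ 0 → 0 < v i x + k * c i)}
  add_mem' {x y} hx hy := by
    refine ⟨(R k).add_mem hx.1 hy.1, fun h' => ?_⟩
    rcases eq_or_ne x 0 with rfl | hx0
    · rw [zero_add] at h' ⊢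
      exact hy.2 h'
    rcases eq_or_ne y 0 with rfl | hy0
    · rw [add_zero] at h' ⊢
      exact hx.2 h'
    have h1 := hx.2 hx0
    have h2 := hy.2 hy0
    have h3 := h.ord.add i x y hx0 hy0 h'
    rcases min_le_iff.1 h3 with h4 | h4 <;> linarith
  zero_mem' := ⟨(R k).zero_mem, fun h' => absurd rfl h'⟩
  smul_mem' a x hx := by
    refine ⟨(R k).smul_mem a hx.1, fun h' => ?_⟩
    have ha : a ≠ 0 := fun ha => h' (by rw [ha, zero_smul])
    have hx0 : x ≠ 0 := fun hc => h' (by rw [hc, smul_zero])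
    rw [h.ord.smul i hx0 ha]
    exact hx.2 hx0

/-- two sections of degree `k`: for all but one scalar `t`, `x + t y` does not vanish at `i` if
`x` or `y` does not vanish -/
theorem pencil (h : DivSys F v c R) (i : ι) {k : ℕ} {x y : K} (hx : x ∈ R k) (hy : y ∈ R k)
    (hne : ¬ (x ∈ h.van i k ∧ y ∈ h.van i k)) {s t : F} (hst : s ≠ t)
    (hs : x + s • y ∈ h.van i k) (ht : x + t • y ∈ h.van i k) : False := by
  have h1 : (s - t) • y ∈ h.van i k := by
    have := (h.van i k).sub_mem hs ht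
    rw [add_sub_add_left_eq_sub, ← sub_smul] at this
    exact this
  have h2 : y ∈ h.van i k := by
    have := (h.van i k).smul_mem (s - t)⁻¹ h1
    rwa [smul_smul, inv_mul_cancel₀ (sub_ne_zero.2 hst), one_smul] at this
  have h3 : x ∈ h.van i k := by
    have := (h.van i k).sub_mem hs ((h.van i k).smul_mem s h2)
    rwa [add_sub_cancel_right] at this
  exact hne ⟨h3, h2⟩

/-- a section which does not vanish at finitely many given places -/
theorem exists_general [Infinite F] (h : DivSys F v c R) (T : Finset ι) {k : ℕ}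
    (hT : ∀ i ∈ T, ∃ x ∈ R k, x ≠ 0 ∧ v i x + k * c i = 0) :
    ∃ b ∈ R k, ∀ i ∈ T, b ≠ 0 ∧ v i b + k * c i = 0 := by
  classical
  induction T using Finset.induction_on with
  | empty => exact ⟨0, (R k).zero_mem, fun i hi => absurd hi (Finset.notMem_empty i)⟩
  | insert j T hj ih =>
    obtain ⟨b, hb, hbT⟩ := ih fun i hi => hT i (Finset.mem_insert_of_mem hi)
    obtain ⟨x, hx, hx0, hxv⟩ := hT j (Finset.mem_insert_self j T)
    -- consider `b + t x`
    have hne : ∀ i ∈ insert j T, ¬ (b ∈ h.van i k ∧ x ∈ h.van i k) := by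
      rintro i hi ⟨h1, h2⟩
      rcases Finset.mem_insert.1 hi with rfl | hi
      · have := h2.2 hx0
        omega
      · have := h1.2 (hbT i hi).1
        have := (hbT i hi).2
        omega
    set bad : Finset F := (insert j T).biUnion fun i =>
        if hex : ∃ t : F, b + t • x ∈ h.van i k then {hex.choose} else (∅ : Finset F) with hbaddef
    obtain ⟨t, ht⟩ := Infinite.exists_notMem_finset bad
    have hgood : ∀ i ∈ insert j T, b + t • x ∉ h.van i k := by
      intro i hi hmem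
      have hex : ∃ t : F, b + t • x ∈ h.van i k := ⟨t, hmem⟩
      apply ht
      rw [hbaddef, Finset.mem_biUnion]
      refine ⟨i, hi, ?_⟩
      rw [dif_pos hex, Finset.mem_singleton]
      by_contra hne'
      exact h.pencil i hb hx (hne i hi) hne' hmem hex.choose_spec
    have hmemR : b + t • x ∈ R k := (R k).add_mem hb ((R k).smul_mem t hx)
    refine ⟨b + t • x, hmemR, fun i hi => ?_⟩
    have h0 : b + t • x ≠ 0 := fun h0 => hgood i hi (by rw [h0]; exact (h.van i k).zero_mem)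
    refine ⟨h0, ?_⟩
    by_contra hv
    have h1 := (h.mem k _).1 hmemR i h0
    exact hgood i hi ⟨hmemR, fun _ => lt_of_le_of_ne h1 (Ne.symm hv)⟩

/-- **Coprime pairs.** -/
theorem sat (h : DivSys F v c R) {k : ℕ} (hk : 1 ≤ k) {a b : K} (ha0 : a ≠ 0) (hb0 : b ≠ 0)
    (ha : a ∈ R k)
    (hab : ∀ i, ¬ St v c R i → 0 < v i a + k * c i → v i b + k * c i = 0)
    {m n : ℕ} {ψ : K} (h1 : a * ψ ∈ R (m + k)) (h2 : b ^ n * ψ ∈ R (m + n * k)) : ψ ∈ R m := by
  refine h.mem_of_nonstable hk ha0 ha fun i hi h0 => ?_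
  have e1 := (h.mem _ _).1 h1 i (mul_ne_zero ha0 h0)
  have e2 := (h.mem _ _).1 h2 i (mul_ne_zero (pow_ne_zero n hb0) h0)
  rw [h.ord.mul i _ _ ha0 h0] at e1
  rw [h.ord.mul i _ _ (pow_ne_zero n hb0) h0, h.ord.pow i hb0] at e2
  push_cast at e1 e2
  have e3 := (h.mem k a).1 ha i ha0
  rcases e3.lt_or_eq with h' | h'
  · have h5 := hab i hi h'
    have h6 : (n : ℤ) * (v i b + k * c i) = 0 := by rw [h5, mul_zero]
    linarith
  · linarith

end DivSys

end Pool.Agent.TH871.N4
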