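import Pool.Agent.TH871.N4.Sat
import Pool.Agent.TH871.N4.Krull

/-!
# Global sections of `O(m, -m)` on a normal subvariety of `P^N × P^M`

Everything lives in the function field `K` of `X`.  `x i`, `y j` are the dehomogenised
coordinates (`x 0 = y 0 = 1`), `O x y u v` is the image of the bihomogeneous polynomials of
bidegree `(u, v)`, `R x y m` the space of global sections of `O(m, -m)`, `A x y i j` the coordinate
ring of the chart `x_i y_j ≠ 0`.
-/

set_option autoImplicit false

open Finset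

namespace Pool.Agent.TH871.N4

variable {F K : Type*} [Field F] [Field K] [Algebra F K] {N M : ℕ}

/-- the monomial `x^α y^β` -/
def mon (x : Fin (N + 1) → K) (y : Fin (M + 1) → K) (α : Fin (N + 1) → ℕ)
    (β : Fin (M + 1) → ℕ) : K :=
  (∏ i, x i ^ α i) * ∏ j, y j ^ β j

variable (F) in
/-- the image of the bihomogeneous polynomials of bidegree `(u, v)` -/
def O (x : Fin (N + 1) → K) (y : Fin (M + 1) → K) (u v : ℕ) : Submodule F K :=
  Submodule.span F {z | ∃ α β, (∑ i, α i = u) ∧ (∑ j, β j = v) ∧ z = mon x y α β}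

variable {x : Fin (N + 1) → K} {y : Fin (M + 1) → K}

theorem mon_mem {α : Fin (N + 1) → ℕ} {β : Fin (M + 1) → ℕ} {u v : ℕ} (hα : ∑ i, α i = u)
    (hβ : ∑ j, β j = v) : mon x y α β ∈ O F x y u v :=
  Submodule.subset_span ⟨α, β, hα, hβ, rfl⟩

theorem mon_mul (α α' : Fin (N + 1) → ℕ) (β β' : Fin (M + 1) → ℕ) :
    mon x y α β * mon x y α' β' = mon x y (α + α') (β + β') := by
  unfold mon
  simp only [Pi.add_apply, pow_add, Finset.prod_mul_distrib]
  ring

theorem O_mul {u v u' v' : ℕ} {f g : K} (hf : f ∈ O F x y u v) (hg : g ∈ O F x y u' v') :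
    f * g ∈ O F x y (u + u') (v + v') := by
  have h1 : O F x y u v * O F x y u' v' ≤ O F x y (u + u') (v + v') := by
    unfold O
    rw [Submodule.span_mul_span]
    refine Submodule.span_mono ?_
    rintro _ ⟨_, ⟨α, β, hα, hβ, rfl⟩, _, ⟨α', β', hα', hβ', rfl⟩, rfl⟩
    refine ⟨α + α', β + β', ?_, ?_, mon_mul _ _ _ _⟩
    · simp only [Pi.add_apply, Finset.sum_add_distrib, hα, hα']
    · simp only [Pi.add_apply, Finset.sum_add_distrib, hβ, hβ']
  exact h1 (Submodule.mul_mem_mul hf hg)

theorem x_mem (i : Fin (N + 1)) : x i ∈ O F x y 1 0 := by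
  have := mon_mem (F := F) (x := x) (y := y) (α := Pi.single i 1) (β := 0) (u := 1) (v := 0)
    (by simp) (by simp)
  convert! this using 1
  unfold mon
  simp [Pi.single_apply, Finset.prod_ite_eq', pow_ite]

theorem y_mem (j : Fin (M + 1)) : y j ∈ O F x y 0 1 := by
  have := mon_mem (F := F) (x := x) (y := y) (α := 0) (β := Pi.single j 1) (u := 0) (v := 1)
    (by simp) (by simp)
  convert! this using 1
  unfold mon
  simp [Pi.single_apply, Finset.prod_ite_eq', pow_ite]

theorem one_mem_O : (1 : K) ∈ O F x y 0 0 := by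
  have := mon_mem (F := F) (x := x) (y := y) (α := 0) (β := 0) (u := 0) (v := 0)
    (by simp) (by simp)
  convert! this using 1
  unfold mon
  simp

theorem x_pow_mem (i : Fin (N + 1)) (n : ℕ) : x i ^ n ∈ O F x y n 0 := by
  induction n with
  | zero => simpa using one_mem_O
  | succ n ih =>
    have := O_mul ih (x_mem (F := F) (x := x) (y := y) i)
    rw [add_zero] at this
    rw [pow_succ]
    exact this

theorem y_pow_mem (j : Fin (M + 1)) (n : ℕ) : y j ^ n ∈ O F x y 0 n := by
  induction n with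
  | zero => simpa using one_mem_O
  | succ n ih =>
    have := O_mul ih (y_mem (F := F) (x := x) (y := y) j)
    rw [add_zero] at this
    rw [pow_succ]
    exact this

instance O_finite (u v : ℕ) : FiniteDimensional F (O F x y u v) := by
  refine FiniteDimensional.span_of_finite F ?_
  have h1 : {z : K | ∃ α β, (∑ i, α i = u) ∧ (∑ j, β j = v) ∧ z = mon x y α β} ⊆
      (fun p : (Fin (N + 1) → Fin (u + 1)) × (Fin (M + 1) → Fin (v + 1)) =>
        mon x y (fun i => (p.1 i : ℕ)) (fun j => (p.2 j : ℕ))) '' Set.univ := by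
    rintro _ ⟨α, β, hα, hβ, rfl⟩
    refine ⟨(fun i => ⟨α i, ?_⟩, fun j => ⟨β j, ?_⟩), Set.mem_univ _, rfl⟩
    · have := Finset.single_le_sum (f := α) (fun _ _ => Nat.zero_le _) (Finset.mem_univ i)
      omega
    · have := Finset.single_le_sum (f := β) (fun _ _ => Nat.zero_le _) (Finset.mem_univ j)
      omega
  exact (Set.finite_univ.image _).subset h1

theorem exists_split {n u : ℕ} {α : Fin (n + 1) → ℕ} (h : ∑ i, α i = u + 1) :
    ∃ (i : Fin (n + 1)) (α' : Fin (n + 1) → ℕ), α = Pi.single i 1 + α' ∧ ∑ j, α' j = u := by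
  obtain ⟨i, -, hi⟩ := Finset.exists_ne_zero_of_sum_ne_zero (s := Finset.univ) (f := α) (by omega)
  refine ⟨i, (α - Pi.single i 1 : Fin (n + 1) → ℕ), ?_, ?_⟩
  · funext j
    simp only [Pi.add_apply, Pi.sub_apply]
    by_cases hj : j = i
    · subst hj
      simp only [Pi.single_eq_same]
      omega
    · rw [Pi.single_eq_of_ne hj]
      omega
  · have h1 : α = Pi.single i 1 + (α - Pi.single i 1) := by
      funext j
      simp only [Pi.add_apply, Pi.sub_apply]
      by_cases hj : j = i
      · subst hj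
        simp only [Pi.single_eq_same]
        omega
      · rw [Pi.single_eq_of_ne hj]
        omega
    have h2 : ∑ j, α j = ∑ j, (Pi.single i 1 : Fin (n + 1) → ℕ) j +
        ∑ j, (α - Pi.single i 1 : Fin (n + 1) → ℕ) j := by
      conv_lhs => rw [h1]
      simp only [Pi.add_apply, Finset.sum_add_distrib]
    rw [Finset.sum_pi_single', if_pos (Finset.mem_univ i)] at h2
    omega

theorem mon_single_x (i : Fin (N + 1)) (α : Fin (N + 1) → ℕ) (β : Fin (M + 1) → ℕ) :
    mon x y (Pi.single i 1 + α) β = x i * mon x y α β := by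
  unfold mon
  simp only [Pi.add_apply, pow_add, Finset.prod_mul_distrib]
  simp [Pi.single_apply, Finset.prod_ite_eq', pow_ite]
  ring

theorem mon_single_y (j : Fin (M + 1)) (α : Fin (N + 1) → ℕ) (β : Fin (M + 1) → ℕ) :
    mon x y α (Pi.single j 1 + β) = y j * mon x y α β := by
  unfold mon
  simp only [Pi.add_apply, pow_add, Finset.prod_mul_distrib]
  simp [Pi.single_apply, Finset.prod_ite_eq', pow_ite]
  ring

/-- to check `ψ O (u, v) ⊆ V` it is enough to check monomials -/
theorem forall_O {u v : ℕ} {V : Submodule F K} {ψ : K}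
    (h : ∀ α β, (∑ i, α i = u) → (∑ j, β j = v) → ψ * mon x y α β ∈ V) :
    ∀ f ∈ O F x y u v, ψ * f ∈ V := by
  intro f hf
  unfold O at hf
  induction hf using Submodule.span_induction with
  | mem z hz =>
    obtain ⟨α, β, hα, hβ, rfl⟩ := hz
    exact h α β hα hβ
  | zero => rw [mul_zero]; exact V.zero_mem
  | add a b _ _ ha hb => rw [mul_add]; exact V.add_mem ha hb
  | smul t a _ ha => rw [mul_smul_comm]; exact V.smul_mem t ha

theorem R_step {ψ : K} {c m : ℕ} (h : ∀ f ∈ O F x y c (c + m), ψ * f ∈ O F x y (c + m) c) :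
    ∀ f ∈ O F x y (c + 1) (c + 1 + m), ψ * f ∈ O F x y (c + 1 + m) (c + 1) := by
  refine forall_O fun α β hα hβ => ?_
  obtain ⟨i, α', rfl, hα'⟩ := exists_split hα
  obtain ⟨j, β', rfl, hβ'⟩ := exists_split (u := c + m) (by rw [hβ]; ring)
  rw [mon_single_x, mon_single_y]
  have h1 := O_mul (O_mul (x_mem (F := F) (x := x) (y := y) i) (y_mem (F := F) (x := x) (y := y) j))
    (h _ (mon_mem (F := F) hα' hβ'))
  have e : ψ * (x i * (y j * mon x y α' β')) = x i * y j * (ψ * mon x y α' β') := by ring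
  rw [e]
  convert! h1 using 2 <;> ring

theorem R_mono {ψ : K} {c m : ℕ} (h : ∀ f ∈ O F x y c (c + m), ψ * f ∈ O F x y (c + m) c) {d : ℕ}
    (hd : c ≤ d) : ∀ f ∈ O F x y d (d + m), ψ * f ∈ O F x y (d + m) d := by
  induction hd with
  | refl => exact h
  | step _ ih => exact R_step ih

variable (F) in
/-- the global sections of `O(m, -m)` -/
def R (x : Fin (N + 1) → K) (y : Fin (M + 1) → K) (m : ℕ) : Submodule F K where
  carrier := {ψ | ∃ c, ∀ f ∈ O F x y c (c + m), ψ * f ∈ O F x y (c + m) c}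
  add_mem' := by
    rintro a b ⟨c, hc⟩ ⟨d, hd⟩
    refine ⟨max c d, fun f hf => ?_⟩
    rw [add_mul]
    exact Submodule.add_mem _ (R_mono hc (le_max_left c d) f hf) (R_mono hd (le_max_right c d) f hf)
  zero_mem' := ⟨0, fun f _ => by rw [zero_mul]; exact Submodule.zero_mem _⟩
  smul_mem' := by
    rintro t a ⟨c, hc⟩
    refine ⟨c, fun f hf => ?_⟩
    rw [smul_mul_assoc]
    exact Submodule.smul_mem _ t (hc f hf)

theorem mem_R {m : ℕ} {ψ : K} :
    ψ ∈ R F x y m ↔ ∃ c, ∀ f ∈ O F x y c (c + m), ψ * f ∈ O F x y (c + m) c := Iff.rfl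

variable (F) in
/-- the coordinate ring of the chart `x_i y_j ≠ 0` -/
def A (x : Fin (N + 1) → K) (y : Fin (M + 1) → K) (p : Fin (N + 1) × Fin (M + 1)) :
    Subalgebra F K :=
  Algebra.adjoin F (Set.range (fun a => x a / x p.1) ∪ Set.range (fun b => y b / y p.2))

theorem div_mem_A {p : Fin (N + 1) × Fin (M + 1)} (h1 : x p.1 ≠ 0) (h2 : y p.2 ≠ 0) {u v : ℕ}
    {f : K} (hf : f ∈ O F x y u v) : f / (x p.1 ^ u * y p.2 ^ v) ∈ A F x y p := by
  have key : ∀ α β, (∑ i, α i = u) → (∑ j, β j = v) →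
      (x p.1 ^ u * y p.2 ^ v)⁻¹ * mon x y α β ∈ Subalgebra.toSubmodule (A F x y p) := by
    intro α β hα hβ
    have e : (x p.1 ^ u * y p.2 ^ v)⁻¹ * mon x y α β =
        (∏ i, (x i / x p.1) ^ α i) * ∏ j, (y j / y p.2) ^ β j := by
      unfold mon
      simp only [div_pow, Finset.prod_div_distrib, Finset.prod_pow_eq_pow_sum, hα, hβ]
      field_simp
    rw [e, Subalgebra.mem_toSubmodule]
    refine (A F x y p).mul_mem (Subalgebra.prod_mem _ fun i _ => ?_)
      (Subalgebra.prod_mem _ fun j _ => ?_)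
    · exact (A F x y p).pow_mem (Algebra.subset_adjoin (Or.inl ⟨i, rfl⟩)) _
    · exact (A F x y p).pow_mem (Algebra.subset_adjoin (Or.inr ⟨j, rfl⟩)) _
  have := forall_O key f hf
  rw [Subalgebra.mem_toSubmodule] at this
  rwa [div_eq_inv_mul]

/-- denominators of the elements of a chart -/
theorem exists_mul_mem {p : Fin (N + 1) × Fin (M + 1)} (h1 : x p.1 ≠ 0) (h2 : y p.2 ≠ 0)
    {g : K} (hg : g ∈ A F x y p) : ∃ e, ∀ e', e ≤ e' → g * (x p.1 ^ e' * y p.2 ^ e') ∈ O F x y e' e' := by
  have hxy : ∀ e, x p.1 ^ e * y p.2 ^ e ∈ O F x y e e := fun e => by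
    have := O_mul (x_pow_mem (F := F) (x := x) (y := y) p.1 e)
      (y_pow_mem (F := F) (x := x) (y := y) p.2 e)
    rwa [add_zero, zero_add] at this
  -- enough: one `e`
  have hone : ∀ g : K, (∃ e, g * (x p.1 ^ e * y p.2 ^ e) ∈ O F x y e e) →
      ∃ e, ∀ e', e ≤ e' → g * (x p.1 ^ e' * y p.2 ^ e') ∈ O F x y e' e' := by
    rintro g ⟨e, he⟩
    refine ⟨e, fun e' hee' => ?_⟩
    obtain ⟨d, rfl⟩ := Nat.exists_eq_add_of_le hee'
    have := O_mul he (hxy d)
    rw [pow_add, pow_add]
    convert! this using 1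
    ring
  unfold A at hg
  induction hg using Algebra.adjoin_induction with
  | mem z hz =>
    apply hone
    refine ⟨1, ?_⟩
    rcases hz with ⟨a, rfl⟩ | ⟨b, rfl⟩
    · have := O_mul (x_mem (F := F) (x := x) (y := y) a) (y_mem (F := F) (x := x) (y := y) p.2)
      rw [add_zero, zero_add] at this
      convert! this using 1
      simp only
      field_simp
    · have := O_mul (x_mem (F := F) (x := x) (y := y) p.1) (y_mem (F := F) (x := x) (y := y) b)
      rw [add_zero, zero_add] at this
      convert! this using 1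
      simp only
      field_simp
  | algebraMap r =>
    apply hone
    refine ⟨0, ?_⟩
    rw [pow_zero, pow_zero, mul_one, mul_one, Algebra.algebraMap_eq_smul_one]
    exact Submodule.smul_mem _ _ one_mem_O
  | add a b _ _ ha hb =>
    obtain ⟨e, he⟩ := ha
    obtain ⟨d, hd⟩ := hb
    refine ⟨max e d, fun e' he' => ?_⟩
    rw [add_mul]
    exact Submodule.add_mem _ (he e' ((le_max_left _ _).trans he'))
      (hd e' ((le_max_right _ _).trans he'))
  | mul a b _ _ ha hb =>
    obtain ⟨e, he⟩ := ha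
    obtain ⟨d, hd⟩ := hb
    apply hone
    refine ⟨e + d, ?_⟩
    have := O_mul (he e le_rfl) (hd d le_rfl)
    rw [pow_add, pow_add]
    convert! this using 1
    ring

/-- pigeonhole for monomials -/
theorem exists_big {n e u : ℕ} {α : Fin (n + 1) → ℕ} (h : ∑ i, α i = u) (hu : (n + 1) * e ≤ u) :
    ∃ i, e ≤ α i := by
  by_contra hcon
  push Not at hcon
  rcases Nat.eq_zero_or_pos e with rfl | he
  · exact absurd (hcon 0) (by omega)
  have : ∑ i, α i ≤ ∑ _i : Fin (n + 1), (e - 1) := Finset.sum_le_sum fun i _ => by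
    have := hcon i
    omega
  rw [Finset.sum_const, Finset.card_univ, Fintype.card_fin, smul_eq_mul, h] at this
  have h2 : (n + 1) * (e - 1) < (n + 1) * e := by
    apply Nat.mul_lt_mul_of_pos_left <;> omega
  omega

theorem mon_eq_mul_x {α : Fin (N + 1) → ℕ} (β : Fin (M + 1) → ℕ) {u e : ℕ} (hα : ∑ i, α i = u)
    {i : Fin (N + 1)} (hi : e ≤ α i) : ∃ α' : Fin (N + 1) → ℕ, ∑ i, α' i = u - e ∧
      mon x y α β = x i ^ e * mon x y α' β := by
  induction e generalizing α u with
  | zero => exact ⟨α, by simpa using hα, by simp⟩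
  | succ e ih =>
    have h1 : α = Pi.single i 1 + (α - Pi.single i 1) := by
      funext j
      simp only [Pi.add_apply, Pi.sub_apply]
      by_cases hj : j = i
      · subst hj
        simp only [Pi.single_eq_same]
        omega
      · rw [Pi.single_eq_of_ne hj]
        omega
    have h2 : ∑ j, α j = ∑ j, (Pi.single i 1 : Fin (N + 1) → ℕ) j +
        ∑ j, (α - Pi.single i 1 : Fin (N + 1) → ℕ) j := by
      conv_lhs => rw [h1]
      simp only [Pi.add_apply, Finset.sum_add_distrib]
    rw [Finset.sum_pi_single', if_pos (Finset.mem_univ i)] at h2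
    obtain ⟨α', hα', he⟩ := ih (α := α - Pi.single i 1) (u := u - 1) (by omega) (by
      simp only [Pi.sub_apply, Pi.single_eq_same]
      omega)
    refine ⟨α', by omega, ?_⟩
    rw [h1, mon_single_x, he, pow_succ]
    ring

theorem mon_eq_mul_y (α : Fin (N + 1) → ℕ) {β : Fin (M + 1) → ℕ} {v e : ℕ} (hβ : ∑ i, β i = v)
    {j : Fin (M + 1)} (hj : e ≤ β j) : ∃ β' : Fin (M + 1) → ℕ, ∑ i, β' i = v - e ∧
      mon x y α β = y j ^ e * mon x y α β' := by
  induction e generalizing β v with
  | zero => exact ⟨β, by simpa using hβ, by simp⟩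
  | succ e ih =>
    have h1 : β = Pi.single j 1 + (β - Pi.single j 1) := by
      funext i
      simp only [Pi.add_apply, Pi.sub_apply]
      by_cases hj : i = j
      · subst hj
        simp only [Pi.single_eq_same]
        omega
      · rw [Pi.single_eq_of_ne hj]
        omega
    have h2 : ∑ i, β i = ∑ i, (Pi.single j 1 : Fin (M + 1) → ℕ) i +
        ∑ i, (β - Pi.single j 1 : Fin (M + 1) → ℕ) i := by
      conv_lhs => rw [h1]
      simp only [Pi.add_apply, Finset.sum_add_distrib]
    rw [Finset.sum_pi_single', if_pos (Finset.mem_univ j)] at h2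
    obtain ⟨β', hβ', he⟩ := ih (β := β - Pi.single j 1) (v := v - 1) (by omega) (by
      simp only [Pi.sub_apply, Pi.single_eq_same]
      omega)
    refine ⟨β', by omega, ?_⟩
    rw [h1, mon_single_y, he, pow_succ]
    ring

/-- **Global sections through the charts.** -/
theorem mem_R_iff {m : ℕ} {ψ : K} : ψ ∈ R F x y m ↔ ∀ p : Fin (N + 1) × Fin (M + 1),
    x p.1 ≠ 0 → y p.2 ≠ 0 → ψ * (y p.2 / x p.1) ^ m ∈ A F x y p := by
  constructor
  · rintro ⟨c, hc⟩ p h1 h2
    have h3 : x p.1 ^ c * y p.2 ^ (c + m) ∈ O F x y c (c + m) := by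
      have := O_mul (x_pow_mem (F := F) (x := x) (y := y) p.1 c)
        (y_pow_mem (F := F) (x := x) (y := y) p.2 (c + m))
      rwa [add_zero, zero_add] at this
    have h4 := div_mem_A h1 h2 (hc _ h3)
    convert! h4 using 1
    rw [div_pow, pow_add, pow_add]
    field_simp
  · intro h
    choose! e he using fun (p : Fin (N + 1) × Fin (M + 1)) (h1 : x p.1 ≠ 0) (h2 : y p.2 ≠ 0) =>
      exists_mul_mem h1 h2 (h p h1 h2)
    set E : ℕ := (∑ p, e p) + m + 1 with hE
    have hEle : ∀ p, e p ≤ E := fun p => by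
      have := Finset.single_le_sum (f := e) (fun _ _ => Nat.zero_le _) (Finset.mem_univ p)
      omega
    refine ⟨(N + 1) * E + (M + 1) * (E + m), ?_⟩
    refine forall_O fun α β hα hβ => ?_
    set c : ℕ := (N + 1) * E + (M + 1) * (E + m) with hc
    obtain ⟨i, hi⟩ := exists_big (e := E) hα (by omega)
    obtain ⟨j, hj⟩ := exists_big (e := E + m) hβ (by nlinarith)
    obtain ⟨α', hα', h3⟩ := mon_eq_mul_x (x := x) (y := y) β hα hi
    obtain ⟨β', hβ', h4⟩ := mon_eq_mul_y (x := x) (y := y) α' hβ hj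
    rw [h3, h4]
    by_cases h1 : x i = 0
    · rw [h1, zero_pow (by omega), zero_mul, mul_zero]
      exact Submodule.zero_mem _
    by_cases h2 : y j = 0
    · rw [h2, zero_pow (by omega), zero_mul, mul_zero, mul_zero]
      exact Submodule.zero_mem _
    have h5 := he (i, j) h1 h2 E (hEle _)
    have h6 := O_mul h5 (O_mul (x_pow_mem (F := F) (x := x) (y := y) i m)
      (mon_mem (F := F) (x := x) (y := y) hα' hβ'))
    have e1 : ψ * (x i ^ E * (y j ^ (E + m) * mon x y α' β')) =
        ψ * (y j / x i) ^ m * (x i ^ E * y j ^ E) * (x i ^ m * mon x y α' β') := by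
      rw [div_pow, pow_add]
      field_simp
      ring
    rw [e1]
    have e2 : E + (m + (c - E)) = c + m := by
      have : E ≤ c := by rw [hc]; nlinarith
      omega
    have e3 : E + (0 + (c + m - (E + m))) = c := by
      have : E ≤ c := by rw [hc]; nlinarith
      omega
    rw [e2, e3] at h6
    exact h6

end Pool.Agent.TH871.N4
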