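import Pool.Agent.TH871.N4.Sat
import Pool.Agent.TH871.N4.Indep

/-!
# Coprime pencils
-/

set_option autoImplicit false

namespace Pool.Agent.TH871.N4

namespace DivSys

variable {K ι : Type*} [Field K] [Algebra ℂ K] {v : ι → K → ℤ} {c : ι → ℤ}
  {R : ℕ → Submodule ℂ K}

theorem pencil_finite (h : DivSys ℂ v c R) (T : Finset ι) {k : ℕ} {x y : K} (hx : x ∈ R k)
    (hy : y ∈ R k) (hne : ∀ i ∈ T, ¬ (x ∈ h.van i k ∧ y ∈ h.van i k)) :
    {t : ℂ | ∃ i ∈ T, x + t • y ∈ h.van i k}.Finite := by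
  have h1 : {t : ℂ | ∃ i ∈ T, x + t • y ∈ h.van i k} =
      ⋃ i ∈ T, {t : ℂ | x + t • y ∈ h.van i k} := by
    ext t
    simp
  rw [h1]
  refine Set.Finite.biUnion T.finite_toSet fun i hi => Set.Subsingleton.finite ?_
  intro s hs t ht
  by_contra hst
  exact h.pencil i hx hy (hne i hi) hst hs ht

/-- **The divisor part of S1.** -/
theorem dp (h : DivSys ℂ v c R) {m : ℕ} (hm : 1 ≤ m) {a b c' : K} (ha : a ∈ R m) (hb : b ∈ R m)
    (hc : c' ∈ R m) (ha0 : a ≠ 0) (hind : AlgebraicIndependent ℂ ![b / a, c' / a]) :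
    ∃ k, 1 ≤ k ∧ ∃ a1 ∈ R k, ∃ b0 ∈ R k, ∃ b1 ∈ R k, a1 ≠ 0 ∧
      AlgebraicIndependent ℂ ![b0 / a1, b1 / a1] ∧
      ∃ Bad : Set ℂ, Bad.Finite ∧ ∀ t, t ∉ Bad → b0 + t • b1 ≠ 0 ∧
        ∀ i, ¬ St v c R i → 0 < v i (b0 + t • b1) + k * c i → v i a1 + k * c i = 0 := by
  classical
  obtain ⟨k, hk, ⟨q, hq⟩, hav⟩ := h.exists_degree hm ha0 ha
  obtain ⟨p, rfl⟩ : ∃ p, q = p + 1 := by
    refine Nat.exists_eq_succ_of_ne_zero fun h0 => ?_
    rw [h0, mul_zero] at hq
    omega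
  have ha1 : a ^ (p + 1) ∈ R k := by
    have := h.pow ha (p + 1)
    rwa [mul_comm, ← hq] at this
  have ha10 : a ^ (p + 1) ≠ 0 := pow_ne_zero _ ha0
  have hmul : ∀ z ∈ R m, z * a ^ p ∈ R k := by
    intro z hz
    have := h.mul hz (h.pow ha p)
    rwa [show m + p * m = k by rw [hq]; ring] at this
  have hdiv : ∀ z : K, z * a ^ p / a ^ (p + 1) = z / a := by
    intro z
    rw [pow_succ]
    field_simp
  set a1 : K := a ^ (p + 1) with ha1def
  set β : K := b * a ^ p with hβ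
  set γ : K := c' * a ^ p with hγ
  have hβR : β ∈ R k := hmul b hb
  have hγR : γ ∈ R k := hmul c' hc
  have hTfin : {i | ¬ St v c R i ∧ v i a1 + k * c i ≠ 0}.Finite := by
    refine ((h.fin a1 ha10).union h.finc).subset fun i hi => ?_
    by_contra hcon
    rw [Set.mem_union, not_or] at hcon
    have h1 : v i a1 = 0 := not_not.1 hcon.1
    have h2 : c i = 0 := not_not.1 hcon.2
    apply hi.2
    rw [h1, h2, mul_zero, add_zero]
  set T : Finset ι := hTfin.toFinset with hT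
  have hTmem : ∀ i, i ∈ T ↔ ¬ St v c R i ∧ v i a1 + k * c i ≠ 0 := fun i => hTfin.mem_toFinset
  obtain ⟨b0', hb0', hb0T⟩ := h.exists_general T (k := k) fun i hi =>
    hav i ((hTmem i).1 hi).1
  have hnv : ∀ i ∈ T, b0' ∉ h.van i k := by
    intro i hi hcon
    have h1 := hcon.2 (hb0T i hi).1
    rw [(hb0T i hi).2] at h1
    exact lt_irrefl _ h1
  have hbad1 := h.pencil_finite T hb0' hβR fun i hi hcon => hnv i hi hcon.1
  have hbad2 : {t : ℂ | IsAlgebraic ℂ ((b0' + t • β) / a1)}.Finite := by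
    refine Set.Subsingleton.finite ?_
    intro s hs t ht
    by_contra hst
    have h1 : IsAlgebraic ℂ ((b0' + s • β) / a1 - (b0' + t • β) / a1) := hs.sub ht
    have h2 : (b0' + s • β) / a1 - (b0' + t • β) / a1 = (s - t) • (β / a1) := by
      simp only [Algebra.smul_def, map_sub]
      ring
    rw [h2] at h1
    have h3 : IsAlgebraic ℂ ((s - t)⁻¹ • ((s - t) • (β / a1))) := by
      rw [Algebra.smul_def]
      exact (isAlgebraic_algebraMap _).mul h1
    rw [smul_smul, inv_mul_cancel₀ (sub_ne_zero.2 hst), one_smul, hβ, ha1def, hdiv] at h3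
    exact (indep_two.1 hind).1 h3
  obtain ⟨t1, ht1⟩ := (hbad1.union hbad2).infinite_compl.nonempty
  rw [Set.mem_compl_iff, Set.mem_union, not_or] at ht1
  set b0 : K := b0' + t1 • β with hb0def
  have hb0R : b0 ∈ R k := (R k).add_mem hb0' ((R k).smul_mem t1 hβR)
  have hb0v : ∀ i ∈ T, b0 ∉ h.van i k := fun i hi hcon => ht1.1 ⟨i, hi, hcon⟩
  have hb0t : Transcendental ℂ (b0 / a1) := ht1.2
  have hind' : AlgebraicIndependent ℂ ![β / a1, γ / a1] := by
    rw [hβ, hγ, ha1def, hdiv, hdiv]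
    exact hind
  obtain ⟨b1, hb1R, hb1⟩ : ∃ b1 ∈ R k, AlgebraicIndependent ℂ ![b0 / a1, b1 / a1] := by
    rcases exists_indep hind' hb0t with h1 | h1
    · exact ⟨β, hβR, h1⟩
    · exact ⟨γ, hγR, h1⟩
  refine ⟨k, hk, a1, ha1, b0, hb0R, b1, hb1R, ha10, hb1, _,
    h.pencil_finite T hb0R hb1R fun i hi hcon => hb0v i hi hcon.1, fun t ht => ⟨?_, ?_⟩⟩
  · intro h0
    have h2 := indep_two.1 (indep_swap.1 hb1)
    apply h2.2
    have h3 : b0 / a1 = -(t • (b1 / a1)) := by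
      rw [Algebra.smul_def] at h0 ⊢
      rw [eq_neg_of_add_eq_zero_left h0]
      ring
    rw [h3]
    have h4 : -(t • (b1 / a1)) ∈ IntermediateField.adjoin ℂ {b1 / a1} := by
      refine IntermediateField.neg_mem _ (IntermediateField.smul_mem _ ?_)
      exact IntermediateField.subset_adjoin _ _ (Set.mem_singleton _)
    exact isAlgebraic_algebraMap (R := IntermediateField.adjoin ℂ {b1 / a1}) (A := K) ⟨_, h4⟩
  · intro i hi hpos
    by_contra hcon
    apply ht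
    exact ⟨i, (hTmem i).2 ⟨hi, hcon⟩, (R k).add_mem hb0R ((R k).smul_mem t hb1R), fun _ => hpos⟩

end DivSys

end Pool.Agent.TH871.N4
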