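import Pool.Agent.TH871.N4.Charts
import Pool.Agent.TH493.NEF.Mul
import Pool.Agent.TH75.J4609

/-!
# Dimensions of spaces of sections in low transcendence degree
-/

set_option autoImplicit false

open Finset Module

namespace Pool.Agent.TH871.N4

variable {F K : Type*} [Field F] [Field K] [Algebra F K] {N M : ℕ}
  {x : Fin (N + 1) → K} {y : Fin (M + 1) → K}

theorem O_mono {i : Fin (N + 1)} {j : Fin (M + 1)} (hi : x i = 1) (hj : y j = 1) {u v u' v' : ℕ}
    (hu : u ≤ u') (hv : v ≤ v') : O F x y u v ≤ O F x y u' v' := by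
  intro f hf
  have h1 := O_mul hf (O_mul (x_pow_mem (F := F) (x := x) (y := y) i (u' - u))
    (y_pow_mem (F := F) (x := x) (y := y) j (v' - v)))
  rw [hi, hj, one_pow, one_pow, mul_one, mul_one] at h1
  convert! h1 using 2 <;> omega

theorem pow_le_O (u v t : ℕ) : O F x y u v ^ t ≤ O F x y (t * u) (t * v) := by
  induction t with
  | zero =>
    rw [pow_zero, Submodule.one_le, zero_mul, zero_mul]
    exact one_mem_O
  | succ t ih =>
    rw [pow_succ, Submodule.mul_le]
    intro f hf g hg
    have h1 := O_mul (ih hf) hg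
    convert! h1 using 2 <;> ring

theorem O_zero : O F x y 0 0 ≤ 1 := by
  unfold O
  rw [Submodule.span_le]
  rintro _ ⟨α, β, hα, hβ, rfl⟩
  have h1 : α = 0 := by
    funext k
    exact (Finset.sum_eq_zero_iff.1 hα) k (Finset.mem_univ k)
  have h2 : β = 0 := by
    funext k
    exact (Finset.sum_eq_zero_iff.1 hβ) k (Finset.mem_univ k)
  subst h1
  subst h2
  have : mon x y 0 0 = (1 : K) := by simp [mon]
  rw [this]
  show (1 : K) ∈ (1 : Submodule F K)
  rw [Submodule.mem_one]
  exact ⟨1, map_one _⟩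

theorem O_le_pow (t : ℕ) : O F x y t t ≤ O F x y 1 1 ^ t := by
  induction t with
  | zero =>
    rw [pow_zero]
    exact O_zero
  | succ t ih =>
    have h1 : ∀ f ∈ O F x y (t + 1) (t + 1), (1 : K) * f ∈ O F x y 1 1 ^ (t + 1) := by
      refine forall_O fun α β hα hβ => ?_
      obtain ⟨i, α', rfl, hα'⟩ := exists_split hα
      obtain ⟨j, β', rfl, hβ'⟩ := exists_split hβ
      have h2 : x i * y j ∈ O F x y (1 + 0) (0 + 1) :=
        O_mul (x_mem (F := F) (x := x) (y := y) i) (y_mem (F := F) (x := x) (y := y) j)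
      rw [add_zero, zero_add] at h2
      have h3 := Submodule.mul_mem_mul h2 (ih (mon_mem hα' hβ'))
      rw [← pow_succ'] at h3
      have e : (1 : K) * mon x y (Pi.single i 1 + α') (Pi.single j 1 + β') =
          x i * y j * mon x y α' β' := by
        rw [mon_single_x, mon_single_y]
        ring
      rw [e]
      exact h3
    intro f hf
    have h4 := h1 f hf
    have e : (1 : K) * f = f := one_mul f
    rw [e] at h4
    exact h4

theorem stepx {ψ : K} {u w u' w' : ℕ} (h : ∀ f ∈ O F x y u w, ψ * f ∈ O F x y u' w') :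
    ∀ f ∈ O F x y (u + 1) w, ψ * f ∈ O F x y (u' + 1) w' := by
  refine forall_O fun α β hα hβ => ?_
  obtain ⟨i, α', rfl, hα'⟩ := exists_split hα
  rw [mon_single_x]
  have h1 := O_mul (x_mem (F := F) (x := x) (y := y) i) (h _ (mon_mem (F := F) hα' hβ))
  have e : ψ * (x i * mon x y α' β) = x i * (ψ * mon x y α' β) := by ring
  rw [e]
  convert! h1 using 2 <;> ring

theorem stepy {ψ : K} {u w u' w' : ℕ} (h : ∀ f ∈ O F x y u w, ψ * f ∈ O F x y u' w') :
    ∀ f ∈ O F x y u (w + 1), ψ * f ∈ O F x y u' (w' + 1) := by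
  refine forall_O fun α β hα hβ => ?_
  obtain ⟨j, β', rfl, hβ'⟩ := exists_split hβ
  rw [mon_single_y]
  have h1 := O_mul (y_mem (F := F) (x := x) (y := y) j) (h _ (mon_mem (F := F) hα hβ'))
  have e : ψ * (y j * mon x y α β') = y j * (ψ * mon x y α β') := by ring
  rw [e]
  convert! h1 using 2 <;> ring

theorem R_gen {ψ : K} {c T : ℕ} (h : ∀ f ∈ O F x y c (c + T), ψ * f ∈ O F x y (c + T) c)
    {u v : ℕ} (hu : c ≤ u) (hv : c ≤ v) :
    ∀ f ∈ O F x y u (v + T), ψ * f ∈ O F x y (u + T) v := by
  obtain ⟨a, rfl⟩ := Nat.exists_eq_add_of_le hu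
  obtain ⟨b, rfl⟩ := Nat.exists_eq_add_of_le hv
  clear hu hv
  have h1 : ∀ f ∈ O F x y (c + a) (c + T), ψ * f ∈ O F x y (c + T + a) c := by
    induction a with
    | zero => exact h
    | succ a ih => exact stepx ih
  have h2 : ∀ f ∈ O F x y (c + a) (c + T + b), ψ * f ∈ O F x y (c + T + a) (c + b) := by
    induction b with
    | zero => exact h1
    | succ b ih => exact stepy ih
  intro f hf
  rw [show c + b + T = c + T + b by ring] at hf
  have h3 := h2 f hf
  rwa [show c + T + a = c + a + T by ring] at h3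

/-- a uniform degree for a finite-dimensional space of sections -/
theorem exists_uniform {T : ℕ} (hfin : FiniteDimensional F (R F x y T)) : ∃ c, ∀ ψ ∈ R F x y T,
    ∀ f ∈ O F x y c (c + T), ψ * f ∈ O F x y (c + T) c := by
  classical
  obtain ⟨S, hS⟩ := (Submodule.fg_iff_finiteDimensional _).2 hfin
  have h1 : ∀ s : K, ∃ c, s ∈ S → ∀ f ∈ O F x y c (c + T), s * f ∈ O F x y (c + T) c := by
    intro s
    by_cases hs : s ∈ S
    · have h2 : s ∈ R F x y T := by rw [← hS]; exact Submodule.subset_span hs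
      obtain ⟨c, hc⟩ := mem_R.1 h2
      exact ⟨c, fun _ => hc⟩
    · exact ⟨0, fun h => absurd h hs⟩
  choose c hc using h1
  refine ⟨S.sup c, fun ψ hψ => ?_⟩
  rw [← hS] at hψ
  induction hψ using Submodule.span_induction with
  | mem s hs => exact R_mono (hc s hs) (Finset.le_sup (f := c) hs)
  | zero => intro f _; rw [zero_mul]; exact Submodule.zero_mem _
  | add a b _ _ ha hb =>
    intro f hf
    rw [add_mul]
    exact Submodule.add_mem _ (ha f hf) (hb f hf)
  | smul t a _ ha =>
    intro f hf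
    rw [smul_mul_assoc]
    exact Submodule.smul_mem _ t (ha f hf)

theorem R_pow {T c : ℕ} (h : ∀ ψ ∈ R F x y T, ∀ f ∈ O F x y c (c + T), ψ * f ∈ O F x y (c + T) c)
    (l : ℕ) : ∀ ψ ∈ R F x y T ^ l, ∀ u v, c ≤ u → c ≤ v →
      ∀ f ∈ O F x y u (v + l * T), ψ * f ∈ O F x y (u + l * T) v := by
  induction l with
  | zero =>
    intro ψ hψ u v _ _ f hf
    rw [pow_zero, Submodule.mem_one] at hψ
    obtain ⟨t, rfl⟩ := hψ
    rw [← Algebra.smul_def]
    simp only [zero_mul, add_zero] at hf ⊢
    exact Submodule.smul_mem _ t hf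
  | succ l ih =>
    intro ψ hψ u v hu hv f hf
    rw [pow_succ] at hψ
    induction hψ using Submodule.mul_induction_on' with
    | mem_mul_mem m hm n hn =>
      rw [mul_assoc]
      rw [show v + (l + 1) * T = (v + l * T) + T by ring] at hf
      have h1 := R_gen (h n hn) hu (hv.trans (Nat.le_add_right v (l * T))) f hf
      have h2 := ih m hm (u + T) v (by omega) hv _ h1
      rwa [show u + T + l * T = u + (l + 1) * T by ring] at h2
    | add a _ b _ ha hb =>
      rw [add_mul a b f]
      exact Submodule.add_mem _ ha hb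

theorem finrank_pow [IsAlgClosed F] {U : Submodule F K} (hU : U ≠ ⊥) [FiniteDimensional F U]
    (l : ℕ) : l * finrank F U + 1 ≤ finrank F (U ^ l : Submodule F K) + l ∧ U ^ l ≠ ⊥ := by
  induction l with
  | zero =>
    rw [pow_zero]
    have h1 : (1 : Submodule F K) = Submodule.span F {1} := Submodule.one_eq_span
    constructor
    · rw [h1, finrank_span_singleton one_ne_zero]
      omega
    · rw [h1, Ne, Submodule.span_singleton_eq_bot]
      exact one_ne_zero
  | succ l ih =>
    have hfin : ∀ l : ℕ, FiniteDimensional F (U ^ l : Submodule F K) := fun l =>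
      (Submodule.fg_iff_finiteDimensional _).1
        (((Submodule.fg_iff_finiteDimensional _).2 inferInstance).pow l)
    have h1 := Pool.Agent.TH493.NEF.finrank_mul_field _ (U ^ l) U rfl ih.2 hU (hfin l) inferInstance
    rw [← pow_succ] at h1
    constructor
    · have h2 := ih.1
      rw [add_mul, one_mul]
      omega
    · intro h0
      obtain ⟨u, hu, hu0⟩ := Submodule.exists_mem_ne_zero_of_ne_bot hU
      obtain ⟨v, hv, hv0⟩ := Submodule.exists_mem_ne_zero_of_ne_bot ih.2
      have h3 : v * u ∈ U ^ (l + 1) := by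
        rw [pow_succ]
        exact Submodule.mul_mem_mul hv hu
      rw [h0, Submodule.mem_bot] at h3
      exact mul_ne_zero hv0 hu0 h3

/-- linear growth of `O(t, t)` bounds the sections linearly -/
theorem bound_linear [IsAlgClosed F] {i : Fin (N + 1)} {j : Fin (M + 1)} (hi : x i = 1)
    (hj : y j = 1) {C : ℕ} (hC : ∀ t, finrank F (O F x y t t) ≤ C * (t + 1)) {T : ℕ}
    (hfin : FiniteDimensional F (R F x y T)) (h0 : R F x y T ≠ ⊥) :
    finrank F (R F x y T) ≤ C * T + 1 := by
  by_contra hcon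
  push Not at hcon
  obtain ⟨c, hc⟩ := exists_uniform hfin
  set l : ℕ := C * (c + 1) with hl
  have h1 := (finrank_pow h0 l).1
  have h2 : R F x y T ^ l ≤ O F x y (c + l * T) (c + l * T) := by
    intro ψ hψ
    have h3 : (1 : K) ∈ O F x y c (c + l * T) :=
      O_mono hi hj (Nat.zero_le _) (Nat.zero_le _) one_mem_O
    have h4 := R_pow hc l ψ hψ c c le_rfl le_rfl 1 h3
    rw [mul_one] at h4
    exact O_mono hi hj le_rfl (Nat.le_add_right _ _) h4
  have hf := O_finite (F := F) (x := x) (y := y) (c + l * T) (c + l * T)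
  have h3 := Submodule.finrank_mono h2
  have h4 := hC (c + l * T)
  have h5 : l * (C * T + 2) ≤ l * finrank F (R F x y T) := Nat.mul_le_mul_left _ hcon
  have h6 : l * (C * T + 2) = C * (l * T) + 2 * l := by ring
  have h7 : C * (c + l * T + 1) = l + C * (l * T) := by rw [hl]; ring
  omega

/-- quadratic growth of `O(t, t)`, and a coordinate transcendental over the field of ratios -/
theorem bound_quad [IsAlgClosed F] {i : Fin (N + 1)} {j : Fin (M + 1)} (hi : x i = 1)
    (hj : y j = 1) {C : ℕ} (hC : ∀ t, finrank F (O F x y t t) ≤ C * (t + 1) ^ 2) {T : ℕ}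
    (hT : 1 ≤ T) (hfin : FiniteDimensional F (R F x y T)) {s : K} (hs0 : s ≠ 0)
    (hs : s ∈ R F x y T) (κ : IntermediateField F K) (hκ : ∀ u ∈ R F x y T, u / s ∈ κ) {w : K}
    (hw : Transcendental κ w) (hwO : w ∈ O F x y 1 1) :
    finrank F (R F x y T) ≤ 4 * C * T + 1 := by
  by_contra hcon
  push Not at hcon
  have h0 : R F x y T ≠ ⊥ := fun h => hs0 (by rw [h] at hs; exact (Submodule.mem_bot F).1 hs)
  obtain ⟨c, hc⟩ := exists_uniform hfin
  set l : ℕ := C * (c + 1) ^ 2 + 4 * C * (c + 1) + 1 with hl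
  have h1 := (finrank_pow h0 l).1
  have hfl : FiniteDimensional F (R F x y T ^ l : Submodule F K) :=
    (Submodule.fg_iff_finiteDimensional _).1
      (((Submodule.fg_iff_finiteDimensional _).2 hfin).pow l)
  have hfO := O_finite (F := F) (x := x) (y := y) (c + 2 * (l * T)) (c + 2 * (l * T))
  have hκl : ∀ l : ℕ, ∀ u ∈ R F x y T ^ l, u / s ^ l ∈ κ := by
    intro l
    induction l with
    | zero =>
      intro u hu
      rw [pow_zero, Submodule.mem_one] at hu
      obtain ⟨t, rfl⟩ := hu
      rw [pow_zero, div_one]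
      exact κ.algebraMap_mem t
    | succ l ih =>
      intro u hu
      rw [pow_succ] at hu
      induction hu using Submodule.mul_induction_on' with
      | mem_mul_mem m hm n hn =>
        rw [pow_succ, mul_div_mul_comm]
        exact κ.mul_mem (ih m hm) (hκ n hn)
      | add a _ b _ ha hb =>
        rw [add_div]
        exact κ.add_mem ha hb
  have h2 := Pool.Agent.TH75.J4609.powers κ hw (pow_ne_zero l hs0) (hκl l) (l * T)
    (V := O F x y (c + 2 * (l * T)) (c + 2 * (l * T))) (by
      intro u hu e he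
      have h3 : w ^ e ∈ O F x y (c + l * T) (c + l * T) := by
        have h4 := pow_le_O (F := F) (x := x) (y := y) 1 1 e (Submodule.pow_mem_pow _ hwO e)
        exact O_mono hi hj (by omega) (by omega) h4
      have h4 := R_pow hc l u hu (c + l * T) c (Nat.le_add_right _ _) le_rfl _ h3
      exact O_mono hi hj (by omega) (by omega) h4)
  have h3 := h2.trans (hC (c + 2 * (l * T)))
  -- numerics
  have h4 : l * (4 * C * T + 1) + 1 ≤ finrank F (R F x y T ^ l : Submodule F K) := by
    have h5 : l * (4 * C * T + 2) ≤ l * finrank F (R F x y T) := Nat.mul_le_mul_left _ hcon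
    have h6 : l * (4 * C * T + 2) = l * (4 * C * T + 1) + l := by ring
    omega
  have h5 : (l * T + 1) * (l * (4 * C * T + 1) + 1) ≤ C * (c + 2 * (l * T) + 1) ^ 2 :=
    (Nat.mul_le_mul_left _ h4).trans h3
  have h6 : C * (c + 2 * (l * T) + 1) ^ 2 =
      C * (c + 1) ^ 2 + 4 * C * (c + 1) * (l * T) + 4 * C * (l * T) ^ 2 := by ring
  have h7 : (l * T + 1) * (l * (4 * C * T + 1) + 1) =
      4 * C * (l * T) ^ 2 + l * (l * T) + (l * T + l * (4 * C * T + 1) + 1) := by ring
  have h8 : l * (l * T) = C * (c + 1) ^ 2 * (l * T) + 4 * C * (c + 1) * (l * T) + l * T := by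
    conv_lhs => rw [hl]
    ring
  have h9 : 1 ≤ l * T := Nat.mul_pos (by rw [hl]; omega) hT
  have h10 : C * (c + 1) ^ 2 ≤ C * (c + 1) ^ 2 * (l * T) := Nat.le_mul_of_pos_right _ h9
  omega

end Pool.Agent.TH871.N4
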