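import Pool.Agent.TH871.N4.Charts
import Pool.Agent.TH306.N4.Defs

/-!
# The sections of `m L` through divisorial valuations

For a normal `X ⊂ P^a × P^b` with `Mod P i j π`, the space of `ψ` with `Sec π m ψ` is given by
finitely many families of discrete valuations (`divSys`).
-/

set_option autoImplicit false

open MvPolynomial Finset

namespace Pool.Agent.TH871.N4

open Pool.Agent.TH279.GR Pool.Agent.TH306.N4

variable {a b : ℕ} {L : Type*} [Field L] [Algebra ℂ L]

/-- the coordinates `x_k` -/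
noncomputable def xx (φ : Co a b →ₐ[ℂ] L) (k : Fin (a + 1)) : L := φ (X (Sum.inl k))

/-- the coordinates `y_l` -/
noncomputable def yy (φ : Co a b →ₐ[ℂ] L) (l : Fin (b + 1)) : L := φ (X (Sum.inr l))

theorem weight_eq (d : Ix a b →₀ ℕ) :
    Finsupp.weight (wt a b) d = (∑ k, d (Sum.inl k), ∑ l, d (Sum.inr l)) := by
  rw [Finsupp.weight_apply, Finsupp.sum_fintype _ _ (by simp), Fintype.sum_sum_type]
  simp [wt, Prod.ext_iff, Prod.fst_sum, Prod.snd_sum]

theorem bh_eq_span (u v : ℕ) : bh a b u v =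
    Submodule.span ℂ {f | ∃ d : Ix a b →₀ ℕ, (∑ k, d (Sum.inl k) = u) ∧
      (∑ l, d (Sum.inr l) = v) ∧ f = monomial d 1} := by
  apply le_antisymm
  · intro f hf
    rw [f.as_sum]
    refine Submodule.sum_mem _ fun d hd => ?_
    have h1 : monomial d (coeff d f) = coeff d f • monomial d (1 : ℂ) := by
      rw [smul_monomial, smul_eq_mul, mul_one]
    rw [h1]
    refine Submodule.smul_mem _ _ (Submodule.subset_span ⟨d, ?_⟩)
    have h2 := (mem_weightedHomogeneousSubmodule _ _ _ _).1 hf (mem_support_iff.1 hd)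
    rw [weight_eq, Prod.ext_iff] at h2
    exact ⟨h2.1, h2.2, rfl⟩
  · rw [Submodule.span_le]
    rintro _ ⟨d, h1, h2, rfl⟩
    refine (mem_weightedHomogeneousSubmodule _ _ _ _).2 (isWeightedHomogeneous_monomial _ _ _ ?_)
    rw [weight_eq, h1, h2]

theorem map_monomial (φ : Co a b →ₐ[ℂ] L) (d : Ix a b →₀ ℕ) :
    φ (monomial d 1) = mon (xx φ) (yy φ) (fun k => d (Sum.inl k)) (fun l => d (Sum.inr l)) := by
  rw [monomial_eq, map_one, one_mul, Finsupp.prod_fintype _ _ (by simp), map_prod,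
    Fintype.prod_sum_type]
  simp only [map_pow]
  rfl

theorem TT_eq (φ : Co a b →ₐ[ℂ] L) (u v : ℕ) :
    (bh a b u v).map φ.toLinearMap = O ℂ (xx φ) (yy φ) u v := by
  rw [bh_eq_span, Submodule.map_span]
  unfold O
  congr 1
  ext z
  constructor
  · rintro ⟨_, ⟨d, h1, h2, rfl⟩, rfl⟩
    exact ⟨_, _, h1, h2, map_monomial φ d⟩
  · rintro ⟨α, β, h1, h2, rfl⟩
    refine ⟨monomial (Finsupp.equivFunOnFinite.symm (Sum.elim α β)) 1, ⟨_, ?_, ?_, rfl⟩, ?_⟩
    · simpa using h1
    · simpa using h2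
    · exact (map_monomial φ _).trans (by simp)

/-- sections in terms of `R` -/
theorem sec_iff {FF : Type} [Field FF] [Algebra ℂ FF] (π : Co a b →ₐ[ℂ] FF) (m : ℕ) (ψ : FF) :
    Pool.Agent.TH306.N4.Sec π m ψ ↔ ψ ∈ R ℂ (xx π) (yy π) m := by
  unfold Pool.Agent.TH306.N4.Sec
  rw [mem_R]
  unfold TT
  simp only [TT_eq]

/-- `X_k ↦ x_k / x_p`, `Y_l ↦ y_l / y_q` -/
noncomputable def theta (φ : Co a b →ₐ[ℂ] L) (p : Fin (a + 1) × Fin (b + 1)) : Co a b →ₐ[ℂ] L :=
  aeval (Sum.elim (fun k => xx φ k / xx φ p.1) (fun l => yy φ l / yy φ p.2))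

theorem theta_bh (φ : Co a b →ₐ[ℂ] L) {p : Fin (a + 1) × Fin (b + 1)} (h1 : xx φ p.1 ≠ 0)
    (h2 : yy φ p.2 ≠ 0) {u v : ℕ} {f : Co a b} (hf : f ∈ bh a b u v) :
    theta φ p f * (xx φ p.1 ^ u * yy φ p.2 ^ v) = φ f := by
  rw [bh_eq_span] at hf
  induction hf using Submodule.span_induction with
  | mem z hz =>
    obtain ⟨d, hu, hv, rfl⟩ := hz
    rw [map_monomial, map_monomial]
    have e1 : ∀ k, xx (theta φ p) k = xx φ k / xx φ p.1 := fun k => by
      simp [xx, theta]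
    have e2 : ∀ l, yy (theta φ p) l = yy φ l / yy φ p.2 := fun l => by
      simp [yy, theta]
    unfold mon
    simp only [e1, e2, div_pow, Finset.prod_div_distrib, Finset.prod_pow_eq_pow_sum, hu, hv]
    field_simp
  | zero => simp
  | add x y _ _ hx hy => rw [map_add, add_mul, hx, hy, map_add]
  | smul t x _ hx => rw [map_smul, smul_mul_assoc, hx, map_smul]

theorem theta_X (φ : Co a b →ₐ[ℂ] L) {p : Fin (a + 1) × Fin (b + 1)} (h1 : xx φ p.1 ≠ 0) :
    theta φ p (X (Sum.inl p.1)) = 1 := by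
  simp [theta, div_self h1]

theorem theta_Y (φ : Co a b →ₐ[ℂ] L) {p : Fin (a + 1) × Fin (b + 1)} (h2 : yy φ p.2 ≠ 0) :
    theta φ p (X (Sum.inr p.2)) = 1 := by
  simp [theta, div_self h2]

/-- `f` is the sum of its components in a box -/
theorem exists_comp (f : Co a b) : ∃ D : ℕ, (∑ m ∈ range D ×ˢ range D,
    weightedHomogeneousComponent (wt a b) m f) = f := by
  classical
  have hfin := weightedHomogeneousComponent_finsupp (w := wt a b) f
  refine ⟨hfin.toFinset.sup (fun m => max m.1 m.2 + 1), ?_⟩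
  conv_rhs => rw [← sum_weightedHomogeneousComponent (wt a b) f]
  rw [finsum_eq_sum_of_support_subset]
  intro m hm
  have h1 : m ∈ hfin.toFinset := hfin.mem_toFinset.2 hm
  have h2 := Finset.le_sup (f := fun m : ℕ × ℕ => max m.1 m.2 + 1) h1
  simp only [Finset.coe_product, Finset.coe_range, Set.mem_prod, Set.mem_Iio]
  have h3 := le_max_left m.1 m.2
  have h4 := le_max_right m.1 m.2
  constructor <;> omega

theorem theta_eq_zero {P : Ideal (Co a b)} (hP : BHom P) (φ : Co a b →ₐ[ℂ] L)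
    (hφ : ∀ f ∈ P, φ f = 0) {p : Fin (a + 1) × Fin (b + 1)} (h1 : xx φ p.1 ≠ 0)
    (h2 : yy φ p.2 ≠ 0) {f : Co a b} (hf : f ∈ chart p.1 p.2 P) : theta φ p f = 0 := by
  have h3 : chart p.1 p.2 P ≤ RingHom.ker (theta φ p) := by
    unfold chart
    rw [sup_le_iff, Ideal.span_le]
    constructor
    · intro g hg
      rw [RingHom.mem_ker]
      obtain ⟨D, hD⟩ := exists_comp g
      rw [← hD, map_sum]
      refine Finset.sum_eq_zero fun m _ => ?_
      have h4 := theta_bh φ h1 h2 (u := m.1) (v := m.2)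
        (weightedHomogeneousComponent_mem (wt a b) g m)
      rw [hφ _ (hP g hg m)] at h4
      exact (mul_eq_zero.1 h4).resolve_right (mul_ne_zero (pow_ne_zero _ h1) (pow_ne_zero _ h2))
    · rintro g (rfl | rfl)
      · show theta φ p _ = 0
        rw [map_sub, theta_X φ h1, map_one, sub_self]
      · show theta φ p _ = 0
        rw [map_sub, theta_Y φ h2, map_one, sub_self]
  exact h3 hf

/-- bihomogeneous elements of the chart ideal -/
theorem mem_of_mem_chart {P : Ideal (Co a b)} (hP : P.IsPrime) (hb : BHom P)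
    {p : Fin (a + 1) × Fin (b + 1)} (h1 : X (Sum.inl p.1) ∉ P) (h2 : X (Sum.inr p.2) ∉ P)
    {u v : ℕ} {f : Co a b} (hf : f ∈ bh a b u v) (hfc : f ∈ chart p.1 p.2 P) : f ∈ P := by
  have himz : ∀ f, im P f = 0 ↔ f ∈ P := fun f => by
    show algebraMap (Co a b ⧸ P) (KK P) (Ideal.Quotient.mk P f) = 0 ↔ _
    rw [IsFractionRing.to_map_eq_zero_iff, Ideal.Quotient.eq_zero_iff_mem]
  have h1' : xx (im P) p.1 ≠ 0 := fun h => h1 ((himz _).1 h)
  have h2' : yy (im P) p.2 ≠ 0 := fun h => h2 ((himz _).1 h)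
  have h3 := theta_eq_zero hb (im P) (fun f hf => (himz f).2 hf) h1' h2' hfc
  have h4 := theta_bh (im P) h1' h2' hf
  rw [h3, zero_mul] at h4
  exact (himz f).1 h4.symm

end Pool.Agent.TH871.N4
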