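import Mathlib

/-!
# Coprime pairs of sections of an arbitrary divisor (two-section trick)

`K` is a field (rational functions, or homogeneous fractions), `v i` a family of discrete
valuations (orders along the prime divisors `D_i`), `G m` the fractions of degree `m`, and the
sections of degree `m` are the elements of `G m` with all orders nonnegative.  `D_i` is *stable* if
all sections of positive degree vanish on it.  A fraction which is regular outside the stable
divisors is a section; for suitable `k` there are sections `a, b` of degree `k` without common zero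
divisor except the stable ones, and then `a φ, b φ` sections implies `φ` a section.
-/

set_option autoImplicit false

namespace Pool.Agent.TH871.N4

variable {F K ι : Type*} [Field F] [Field K] [Algebra F K]

/-- a family of orders `v i`, only used at nonzero elements -/
structure Ord (F : Type*) {K ι : Type*} [Field F] [Field K] [Algebra F K] (v : ι → K → ℤ) :
    Prop where
  mul : ∀ i x y, x ≠ 0 → y ≠ 0 → v i (x * y) = v i x + v i y
  add : ∀ i x y, x ≠ 0 → y ≠ 0 → x + y ≠ 0 → min (v i x) (v i y) ≤ v i (x + y)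
  const : ∀ i (c : F), c ≠ 0 → v i (algebraMap F K c) = 0

namespace Ord

variable {v : ι → K → ℤ}

theorem one (hv : Ord F v) (i : ι) : v i 1 = 0 := by
  have := hv.const i (1 : F) one_ne_zero
  rwa [map_one] at this

theorem pow (hv : Ord F v) (i : ι) {x : K} (hx : x ≠ 0) (n : ℕ) : v i (x ^ n) = n * v i x := by
  induction n with
  | zero => simpa using hv.one i
  | succ n ih =>
    rw [pow_succ, hv.mul i _ _ (pow_ne_zero n hx) hx, ih]
    push_cast; ring

theorem smul (hv : Ord F v) (i : ι) {x : K} (hx : x ≠ 0) {c : F} (hc : c ≠ 0) :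
    v i (c • x) = v i x := by
  rw [Algebra.smul_def, hv.mul i _ _ ((map_ne_zero _).2 hc) hx, hv.const i c hc, zero_add]

end Ord

/-- a graded system of `F`-subspaces `G m`, closed under multiplication -/
structure Gr (G : ℕ → Submodule F K) : Prop where
  one : (1 : K) ∈ G 0
  mul : ∀ {m n : ℕ} {x y : K}, x ∈ G m → y ∈ G n → x * y ∈ G (m + n)

theorem Gr.pow {G : ℕ → Submodule F K} (hG : Gr G) {m : ℕ} {x : K} (hx : x ∈ G m) (n : ℕ) :
    x ^ n ∈ G (n * m) := by
  induction n with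
  | zero => simpa using hG.one
  | succ n ih =>
    rw [pow_succ, Nat.succ_mul]
    exact hG.mul ih hx

/-- `x` is a section of degree `m` -/
def Sec (v : ι → K → ℤ) (G : ℕ → Submodule F K) (m : ℕ) (x : K) : Prop :=
  x ∈ G m ∧ ∀ i, x ≠ 0 → 0 ≤ v i x

/-- `i` is stable: all nonzero sections of positive degree vanish at `i` -/
def Stable (v : ι → K → ℤ) (G : ℕ → Submodule F K) (i : ι) : Prop :=
  ∀ m, 1 ≤ m → ∀ x, x ≠ 0 → Sec v G m x → 0 < v i x

variable {v : ι → K → ℤ} {G : ℕ → Submodule F K}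

theorem Sec.mul (hv : Ord F v) (hG : Gr G) {m n : ℕ} {x y : K} (hx : Sec v G m x)
    (hy : Sec v G n y) : Sec v G (m + n) (x * y) := by
  refine ⟨hG.mul hx.1 hy.1, fun i h => ?_⟩
  have h1 : x ≠ 0 := left_ne_zero_of_mul h
  have h2 : y ≠ 0 := right_ne_zero_of_mul h
  rw [hv.mul i _ _ h1 h2]
  exact add_nonneg (hx.2 i h1) (hy.2 i h2)

theorem Sec.pow (hv : Ord F v) (hG : Gr G) {m : ℕ} {x : K} (hx : Sec v G m x) (n : ℕ) :
    Sec v G (n * m) (x ^ n) := by
  refine ⟨hG.pow hx.1 n, fun i h => ?_⟩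
  rcases Nat.eq_zero_or_pos n with rfl | hn
  · simpa using (hv.one i).ge
  · have h1 : x ≠ 0 := fun hc => h (by rw [hc, zero_pow hn.ne'])
    rw [hv.pow i h1]
    exact mul_nonneg (by positivity) (hx.2 i h1)

/-- **The two-section trick**: a fraction of degree `m` which is regular at all non-stable
divisors is a section. -/
theorem sec_of_nonstable (hv : Ord F v) (hG : Gr G)
    (hfin : ∀ m, ∀ x ∈ G m, x ≠ 0 → {i | v i x ≠ 0}.Finite)
    {m' : ℕ} (hm' : 1 ≤ m') {g : K} (hg0 : g ≠ 0) (hg : Sec v G m' g)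
    {m : ℕ} {ψ : K} (hψ : ψ ∈ G m) (h : ∀ i, ¬ Stable v G i → ψ ≠ 0 → 0 ≤ v i ψ) :
    Sec v G m ψ := by
  classical
  refine ⟨hψ, fun i0 hψ0 => ?_⟩
  by_contra hneg
  push Not at hneg
  -- the poles
  have hPfin : {i | v i ψ < 0}.Finite := (hfin m ψ hψ hψ0).subset fun i hi => ne_of_lt hi
  have hst : ∀ i, v i ψ < 0 → 0 < v i g := fun i hi => by
    by_contra hc
    refine absurd (h i (fun hs => hc (hs m' hm' g hg0 hg)) hψ0) (not_le.2 hi)
  -- choose the index with the largest ratio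
  obtain ⟨j, hj, hmax⟩ := hPfin.exists_maximalFor
    (fun i => ((-v i ψ : ℤ) : ℚ) / ((v i g : ℤ) : ℚ)) {i | v i ψ < 0} ⟨i0, hneg⟩
  have hj' : v j ψ < 0 := hj
  have hjg : 0 < v j g := hst j hj'
  set c : ℕ := (v j g).toNat with hc
  set p : ℕ := (-v j ψ).toNat with hp
  have hcz : (c : ℤ) = v j g := Int.toNat_of_nonneg hjg.le
  have hpz : (p : ℤ) = -v j ψ := Int.toNat_of_nonneg (by omega)
  have hp1 : 1 ≤ p := by omega
  have hx0 : ψ ^ c * g ^ p ≠ 0 := mul_ne_zero (pow_ne_zero _ hψ0) (pow_ne_zero _ hg0)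
  have hval : ∀ i, v i (ψ ^ c * g ^ p) = c * v i ψ + p * v i g := fun i => by
    rw [hv.mul i _ _ (pow_ne_zero _ hψ0) (pow_ne_zero _ hg0), hv.pow i hψ0, hv.pow i hg0]
  have hsec : Sec v G (c * m + p * m') (ψ ^ c * g ^ p) := by
    refine ⟨hG.mul (hG.pow hψ c) (hG.pow hg.1 p), fun i _ => ?_⟩
    rw [hval i, hcz, hpz]
    by_cases hi : v i ψ < 0
    · have hig := hst i hi
      have h1 : ((-v i ψ : ℤ) : ℚ) / ((v i g : ℤ) : ℚ) ≤ ((-v j ψ : ℤ) : ℚ) / ((v j g : ℤ) : ℚ) := by
        by_contra hlt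
        push Not at hlt
        exact absurd (hmax hi hlt.le) (not_le.2 hlt)
      have hig' : (0 : ℚ) < ((v i g : ℤ) : ℚ) := by exact_mod_cast hig
      have hjg' : (0 : ℚ) < ((v j g : ℤ) : ℚ) := by exact_mod_cast hjg
      rw [div_le_div_iff₀ hig' hjg'] at h1
      have h2 : -v i ψ * v j g ≤ -v j ψ * v i g := by exact_mod_cast h1
      nlinarith
    · push Not at hi
      have := hg.2 i hg0
      have h3 : 0 ≤ v j g * v i ψ := mul_nonneg hjg.le hi
      have h4 : 0 ≤ -v j ψ * v i g := mul_nonneg (by omega) this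
      linarith
  have hjst : Stable v G j := by
    by_contra hns
    exact absurd (h j hns hψ0) (not_le.2 hj')
  have hdeg : 1 ≤ c * m + p * m' := by nlinarith
  have := hjst _ hdeg _ hx0 hsec
  rw [hval j, hcz, hpz] at this
  have h5 : v j g * v j ψ + -v j ψ * v j g = 0 := by ring
  omega

/-- there is a degree `k` in which every non-stable divisor is avoided by a section -/
theorem exists_degree (hv : Ord F v) (hG : Gr G)
    (hfin : ∀ m, ∀ x ∈ G m, x ≠ 0 → {i | v i x ≠ 0}.Finite)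
    {m' : ℕ} (hm' : 1 ≤ m') {g : K} (hg0 : g ≠ 0) (hg : Sec v G m' g) :
    ∃ k, 1 ≤ k ∧ m' ∣ k ∧ ∀ i, ¬ Stable v G i → ∃ x, x ≠ 0 ∧ Sec v G k x ∧ v i x = 0 := by
  classical
  have hch : ∀ i, ¬ Stable v G i → ∃ m, 1 ≤ m ∧ ∃ x, x ≠ 0 ∧ Sec v G m x ∧ v i x = 0 := by
    intro i hi
    unfold Stable at hi
    push Not at hi
    obtain ⟨m, hm, x, hx0, hx, hle⟩ := hi
    exact ⟨m, hm, x, hx0, hx, le_antisymm hle (hx.2 i hx0)⟩
  choose! M hM X hX using hch
  set T : Finset ι := (hfin m' g hg.1 hg0).toFinset.filter (fun i => ¬ Stable v G i) with hT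
  set P : ℕ := ∏ i ∈ T, M i with hP
  have hPpos : 1 ≤ P := Finset.one_le_prod' fun i hi => by
    rw [hT, Finset.mem_filter] at hi
    exact hM i hi.2
  refine ⟨m' * P, by nlinarith, Dvd.intro _ rfl, fun i hi => ?_⟩
  by_cases hiT : i ∈ T
  · obtain ⟨q, hq⟩ : M i ∣ P := Finset.dvd_prod_of_mem M hiT
    refine ⟨X i ^ (m' * q), pow_ne_zero _ (hX i hi).1, ?_, ?_⟩
    · have := (hX i hi).2.1.pow hv hG (m' * q)
      rwa [show m' * q * M i = m' * P by rw [hq]; ring] at this
    · rw [hv.pow i (hX i hi).1, (hX i hi).2.2, mul_zero]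
  · refine ⟨g ^ P, pow_ne_zero _ hg0, ?_, ?_⟩
    · have := hg.pow hv hG P
      rwa [mul_comm P m'] at this
    · have h0 : v i g = 0 := by
        by_contra hc
        exact hiT (by simp [hT, hc, hi])
      rw [hv.pow i hg0, h0, mul_zero]

/-- the sections of degree `m`, as a subspace -/
def secs (hv : Ord F v) (G : ℕ → Submodule F K) (m : ℕ) : Submodule F K where
  carrier := {x | Sec v G m x}
  add_mem' {x y} hx hy := by
    refine ⟨(G m).add_mem hx.1 hy.1, fun i h => ?_⟩
    rcases eq_or_ne x 0 with rfl | hx0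
    · rw [zero_add] at h ⊢
      exact hy.2 i h
    rcases eq_or_ne y 0 with rfl | hy0
    · rw [add_zero] at h ⊢
      exact hx.2 i h
    exact (le_min (hx.2 i hx0) (hy.2 i hy0)).trans (hv.add i x y hx0 hy0 h)
  zero_mem' := ⟨(G m).zero_mem, fun i h => absurd rfl h⟩
  smul_mem' c x hx := by
    refine ⟨(G m).smul_mem c hx.1, fun i h => ?_⟩
    have hc : c ≠ 0 := fun hc => h (by rw [hc, zero_smul])
    have hx0 : x ≠ 0 := fun hc => h (by rw [hc, smul_zero])
    rw [hv.smul i hx0 hc]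
    exact hx.2 i hx0

theorem mem_secs (hv : Ord F v) {m : ℕ} {x : K} : x ∈ secs hv G m ↔ Sec v G m x := Iff.rfl

/-- the elements of `U` vanishing at `i` form a subspace -/
def vanish (hv : Ord F v) (i : ι) (U : Submodule F K) : Submodule F K where
  carrier := {x | x ∈ U ∧ (x ≠ 0 → 0 < v i x)}
  add_mem' {x y} hx hy := by
    refine ⟨U.add_mem hx.1 hy.1, fun h => ?_⟩
    rcases eq_or_ne x 0 with rfl | hx0
    · rw [zero_add] at h ⊢
      exact hy.2 h
    rcases eq_or_ne y 0 with rfl | hy0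
    · rw [add_zero] at h ⊢
      exact hx.2 h
    exact (lt_min (hx.2 hx0) (hy.2 hy0)).trans_le (hv.add i x y hx0 hy0 h)
  zero_mem' := ⟨U.zero_mem, fun h => absurd rfl h⟩
  smul_mem' c x hx := by
    refine ⟨U.smul_mem c hx.1, fun h => ?_⟩
    have hc : c ≠ 0 := fun hc => h (by rw [hc, zero_smul])
    have hx0 : x ≠ 0 := fun hc => h (by rw [hc, smul_zero])
    rw [hv.smul i hx0 hc]
    exact hx.2 hx0

/-- a general element of `U` does not vanish at finitely many given places -/
theorem exists_general [Infinite F] (hv : Ord F v) (U : Submodule F K) (T : Finset ι)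
    {k : ℕ} (hU : ∀ x ∈ U, Sec v G k x)
    (hT : ∀ i ∈ T, ∃ x ∈ U, x ≠ 0 ∧ v i x = 0) (hU0 : ∃ x ∈ U, x ≠ 0) :
    ∃ b ∈ U, b ≠ 0 ∧ ∀ i ∈ T, v i b = 0 := by
  classical
  -- index the proper subspaces by `Option T`
  let s : Finset (Option ι) := insert none (T.image some)
  let p : Option ι → Submodule F U := fun o =>
    match o with
    | none => ⊥
    | some i => (vanish hv i U).comap U.subtype
  by_contra hcon
  push Not at hcon
  have hcover : (⋃ j ∈ s, (p j : Set U)) = Set.univ := by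
    refine Set.eq_univ_of_forall fun x => ?_
    rw [Set.mem_iUnion₂]
    by_cases hx0 : (x : K) = 0
    · refine ⟨none, Finset.mem_insert_self _ _, ?_⟩
      show x ∈ (⊥ : Submodule F U)
      rw [Submodule.mem_bot]
      exact Subtype.ext hx0
    · obtain ⟨i, hi, hne⟩ := hcon x x.2 hx0
      refine ⟨some i, Finset.mem_insert_of_mem (Finset.mem_image_of_mem _ hi), ?_⟩
      show (x : K) ∈ vanish hv i U
      exact ⟨x.2, fun h => lt_of_le_of_ne ((hU x x.2).2 i h) (Ne.symm hne)⟩
  obtain ⟨j, hj, htop⟩ : ∃ j ∈ s, p j = ⊤ := by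
    by_contra hno
    push Not at hno
    exact Subspace.biUnion_ne_univ_of_top_notMem (s := s.image p) (by
      intro hmem
      rw [Finset.mem_image] at hmem
      obtain ⟨j, hj, hjt⟩ := hmem
      exact hno j hj hjt) (by
      refine Set.eq_univ_of_forall fun x => ?_
      have hx : x ∈ (⋃ j ∈ s, (p j : Set U)) := hcover ▸ Set.mem_univ x
      rw [Set.mem_iUnion₂] at hx
      obtain ⟨j, hj, hxj⟩ := hx
      exact Set.mem_biUnion (Finset.mem_coe.2 (Finset.mem_image_of_mem p hj)) hxj)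
  rcases Finset.mem_insert.1 hj with rfl | hj'
  · obtain ⟨x, hxU, hx0⟩ := hU0
    have hx : (⟨x, hxU⟩ : U) ∈ p none := htop ▸ Submodule.mem_top
    have hx' : (⟨x, hxU⟩ : U) ∈ (⊥ : Submodule F U) := hx
    rw [Submodule.mem_bot] at hx'
    exact hx0 (congrArg Subtype.val hx')
  · obtain ⟨i, hi, rfl⟩ := Finset.mem_image.1 hj'
    obtain ⟨x, hxU, hx0, hxv⟩ := hT i hi
    have hx : (⟨x, hxU⟩ : U) ∈ p (some i) := htop ▸ Submodule.mem_top
    have hx' : x ∈ vanish hv i U := hx
    exact absurd (hx'.2 hx0) (by rw [hxv]; exact lt_irrefl 0)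

/-- **Coprime pairs.**  If `a ≠ 0` and `b ≠ 0` are sections of degree `k` and `b` does not vanish
at the non-stable zeros of `a`, then `a φ` and `b φ` sections implies `φ` a section. -/
theorem coprime (hv : Ord F v) (hG : Gr G)
    (hfin : ∀ m, ∀ x ∈ G m, x ≠ 0 → {i | v i x ≠ 0}.Finite)
    {k : ℕ} (hk : 1 ≤ k) {a b : K} (ha0 : a ≠ 0) (hb0 : b ≠ 0) (ha : Sec v G k a)
    (hab : ∀ i, ¬ Stable v G i → 0 < v i a → v i b = 0)
    {m n : ℕ} {φ : K} (hφ : φ ∈ G m) (h1 : Sec v G n (a * φ)) (h2 : Sec v G n (b * φ)) :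
    Sec v G m φ := by
  refine sec_of_nonstable hv hG hfin hk ha0 ha hφ fun i hi h0 => ?_
  have e1 := h1.2 i (mul_ne_zero ha0 h0)
  have e2 := h2.2 i (mul_ne_zero hb0 h0)
  rw [hv.mul i _ _ ha0 h0] at e1
  rw [hv.mul i _ _ hb0 h0] at e2
  have e3 := ha.2 i ha0
  rcases e3.lt_or_eq with h | h
  · have := hab i hi h
    omega
  · omega

end Pool.Agent.TH871.N4
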